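import Mathlib

/-! MP_78efad_nt: definitions (twisted periods of level one cusp forms, Poincaré terms). -/

open UpperHalfPlane ModularForm EisensteinSeries MeasureTheory
open scoped MatrixGroups Real Nat

namespace Pool.Agent.Helper54.TP

/-- `f_χ(z) = ∑_{m} χ(m) a_f(m) q^m`, `q = exp(2 π i z)`, for a level one cusp form `f`. -/
noncomputable def twist {K : ℤ} {D : ℕ} (χ : DirichletCharacter ℂ D) (f : CuspForm 𝒮ℒ K)
    (z : ℂ) : ℂ :=
  ∑' m : ℕ, χ (m : ZMod D) * (qExpansion 1 (f : ℍ → ℂ)).coeff m *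
    Complex.exp (2 * π * Complex.I * m * z)

/-- `r_{t,χ}(f) = ∫_0^{i∞} f_χ(z) z^t dz`. -/
noncomputable def twistedPeriod {K : ℤ} {D : ℕ} (t : ℕ) (χ : DirichletCharacter ℂ D)
    (f : CuspForm 𝒮ℒ K) : ℂ :=
  ∫ y in Set.Ioi (0 : ℝ), twist χ f (Complex.I * y) * (Complex.I * y) ^ t * Complex.I

/-- a matrix of `SL₂(ℤ)` with bottom row `v` -/
noncomputable def rowMat (v : gammaSet 1 1 0) : SL(2, ℤ) :=
  (((mem_gammaSet_one v.1).1 v.2).exists_SL2_row 1).choose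

/-- `e(m z)` -/
noncomputable def eF (m : ℕ) (z : ℍ) : ℂ := Complex.exp (2 * π * Complex.I * m * (z : ℂ))

/-- the `v`-th term of the Poincaré series: `e(m ·)|_K γ_v` -/
noncomputable def pterm (K : ℤ) (m : ℕ) (v : gammaSet 1 1 0) (z : ℍ) : ℂ :=
  (eF m ∣[K] rowMat v) z

/-- the point `u/D + iy` -/
noncomputable def pt (D : ℕ) (u : ℤ) (y : ℝ) : ℍ :=
  ofComplex ((u : ℂ) / D + Complex.I * y)

/-- `∑_u χ⁻¹(u) e(u/D)` over `0 ≤ u < D` -/
noncomputable def gs {D : ℕ} (χ : DirichletCharacter ℂ D) : ℂ :=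
  ∑ u ∈ Finset.range D, χ⁻¹ (u : ZMod D) * Complex.exp (2 * π * Complex.I * (u / D))

end Pool.Agent.Helper54.TP
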