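import Pool.Agent.Helper54.TP.Defs

/-! MP_78efad_nt: the imaginary axis. -/

open UpperHalfPlane ModularForm EisensteinSeries MeasureTheory
open scoped MatrixGroups Real Nat

namespace Pool.Agent.Helper54.TP

/-- the point `iy` -/
noncomputable def ip (y : ℝ) : ℍ := ofComplex (Complex.I * y)

end Pool.Agent.Helper54.TP
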