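import Pool.Agent.Helper54.TP.DefsOne

/-! MP_78efad_nt, D = 1, file (e): the dimension of the space of level one cusp forms. -/

open UpperHalfPlane ModularForm EisensteinSeries MeasureTheory
open scoped MatrixGroups Real Nat

namespace Pool.Agent.Helper54.TP

theorem dim_bound (K n : ℕ) (hn1 : 1 ≤ n) (hn : n ≤ Module.finrank ℂ (CuspForm 𝒮ℒ (K : ℤ))) :
    Even K ∧ ∃ d δ ε : ℕ, K = 12 * d + 4 * δ + 6 * ε ∧ n ≤ d := by
  have hfr : Module.finrank ℂ (CuspForm 𝒮ℒ (K : ℤ)) =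
      Module.finrank ℂ (ModularForm 𝒮ℒ ((K : ℤ) - 12)) :=
    (CuspForm.discriminantEquiv (k := (K : ℤ))).finrank_eq
  rw [hfr] at hn
  have hK12 : 12 ≤ K := by
    by_contra h
    have h1 : Module.rank ℂ (ModularForm 𝒮ℒ ((K : ℤ) - 12)) = 0 :=
      ModularForm.levelOne_neg_weight_rank_zero (by omega)
    have h2 : Module.finrank ℂ (ModularForm 𝒮ℒ ((K : ℤ) - 12)) = 0 := by
      rw [Module.finrank, h1]
      simp
    omega
  have hKe : Even K := by
    by_contra h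
    have hodd : Odd ((K : ℤ) - 12) := by
      have h1 : Odd K := Nat.not_even_iff_odd.1 h
      obtain ⟨r, hr⟩ := h1
      exact ⟨(r : ℤ) - 6, by rw [hr]; push_cast; ring⟩
    have h1 : Module.rank ℂ (ModularForm 𝒮ℒ ((K : ℤ) - 12)) = 0 :=
      ModularForm.levelOne_odd_weight_rank_zero hodd
    have h2 : Module.finrank ℂ (ModularForm 𝒮ℒ ((K : ℤ) - 12)) = 0 := by
      rw [Module.finrank, h1]
      simp
    omega
  refine ⟨hKe, ?_⟩
  obtain ⟨k, rfl⟩ : ∃ k, K = k + 12 := ⟨K - 12, by omega⟩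
  have hke : Even k := by
    obtain ⟨r, hr⟩ := hKe
    exact ⟨r - 6, by omega⟩
  have h1 := ModularForm.dimension_level_one k hke
  have h2 : Module.finrank ℂ (ModularForm 𝒮ℒ (((k + 12 : ℕ) : ℤ) - 12)) =
      if k ≡ 2 [MOD 12] then k / 12 else k / 12 + 1 := by
    have h3 : (((k + 12 : ℕ) : ℤ) - 12) = (k : ℤ) := by push_cast; ring
    rw [h3, Module.finrank, h1]
    split_ifs
    · simp
    · simp
  rw [h2] at hn
  have hk2 : k % 2 = 0 := Nat.even_iff.1 hke
  have hcases : k % 12 = 0 ∨ k % 12 = 2 ∨ k % 12 = 4 ∨ k % 12 = 6 ∨ k % 12 = 8 ∨ k % 12 = 10 := by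
    omega
  have hm := Nat.div_add_mod k 12
  rcases hcases with h | h | h | h | h | h
  · refine ⟨k / 12 + 1, 0, 0, by omega, ?_⟩
    split_ifs at hn <;> omega
  · refine ⟨k / 12, 2, 1, by omega, ?_⟩
    have h5 : k ≡ 2 [MOD 12] := by
      unfold Nat.ModEq
      omega
    rw [if_pos h5] at hn
    exact hn
  · refine ⟨k / 12 + 1, 1, 0, by omega, ?_⟩
    split_ifs at hn <;> omega
  · refine ⟨k / 12 + 1, 0, 1, by omega, ?_⟩
    split_ifs at hn <;> omega
  · refine ⟨k / 12 + 1, 2, 0, by omega, ?_⟩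
    split_ifs at hn <;> omega
  · refine ⟨k / 12 + 1, 1, 1, by omega, ?_⟩
    split_ifs at hn <;> omega

end Pool.Agent.Helper54.TP
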