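import Pool.Agent.Helper54.TP.Main59

/-! MP_78efad_nt: final forms (a set of nodes; all characters; characters with `χ² = 1`). -/

set_option linter.all false

open UpperHalfPlane ModularForm EisensteinSeries MeasureTheory
open scoped MatrixGroups Real Nat

namespace Pool.Agent.Helper54.TP

/-- Linear independence from a finite set `T` of nodes. -/
theorem indep_of_nodes {D : ℕ} (hD : 1 ≤ D) (χ : DirichletCharacter ℂ D) (hχ : χ.IsPrimitive)
    (K n M : ℕ) (hKe : Even K) (hK : 50 * M * D ≤ K) (T : Finset ℕ)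
    (hT : ∀ m ∈ T, 1 ≤ m ∧ m ≤ M ∧ m.Coprime D)
    (hTs : ∀ m ∈ T, ∀ m' ∈ T, χ (m : ZMod D) ^ 2 = χ (m' : ZMod D) ^ 2)
    (hcard : 2 * n ≤ T.card) (ℓ : Fin n → ℕ) (hℓ : StrictMono ℓ)
    (h3 : ∀ i, 3 ≤ ℓ i) (h4 : ∀ i, 2 * ℓ i + 4 ≤ K) :
    LinearIndependent ℂ
      (fun i : Fin n => (twistedPeriod (ℓ i) χ : CuspForm 𝒮ℒ (K : ℤ) → ℂ)) := by
  classical
  obtain ⟨T', hT', hc'⟩ := Finset.exists_subset_card_eq (show n + n ≤ T.card by omega)
  set m : Fin (n + n) → ℕ := fun j => (T'.equivFinOfCardEq hc').symm j with hm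
  have hmT : ∀ j, m j ∈ T := fun j => hT' ((T'.equivFinOfCardEq hc').symm j).2
  exact main_nodes hD χ hχ K n M hKe hK m
    (fun a b hab => (T'.equivFinOfCardEq hc').symm.injective (Subtype.ext hab))
    (fun j => (hT _ (hmT j)).1) (fun j => (hT _ (hmT j)).2.1) (fun j => (hT _ (hmT j)).2.2)
    (fun i j => hTs _ (hmT i) _ (hmT j)) ℓ hℓ h3 h4

/-- Every primitive character: `100 n D² ≤ K`. -/
theorem indep_all {D : ℕ} (hD : 1 ≤ D) (χ : DirichletCharacter ℂ D) (hχ : χ.IsPrimitive)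
    (K n : ℕ) (hKe : Even K) (hK : 100 * n * D ^ 2 ≤ K) (ℓ : Fin n → ℕ) (hℓ : StrictMono ℓ)
    (h3 : ∀ i, 3 ≤ ℓ i) (h4 : ∀ i, 2 * ℓ i + 4 ≤ K) :
    LinearIndependent ℂ
      (fun i : Fin n => (twistedPeriod (ℓ i) χ : CuspForm 𝒮ℒ (K : ℤ) → ℂ)) := by
  classical
  have hinj : Function.Injective (fun j : ℕ => 1 + j * D) := by
    intro a b hab
    have : a * D = b * D := by simpa using hab
    exact Nat.eq_of_mul_eq_mul_right (by omega) this
  have hone : ∀ j : ℕ, ((1 + j * D : ℕ) : ZMod D) = 1 := by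
    intro j
    push_cast
    simp
  refine indep_of_nodes hD χ hχ K n (2 * n * D) hKe (by nlinarith)
    ((Finset.range (2 * n)).image (fun j => 1 + j * D)) ?_ ?_ ?_ ℓ hℓ h3 h4
  · intro m hm
    obtain ⟨j, hj, rfl⟩ := Finset.mem_image.mp hm
    rw [Finset.mem_range] at hj
    refine ⟨by omega, ?_, ?_⟩
    · have : (j + 1) * D ≤ 2 * n * D := Nat.mul_le_mul_right D hj
      nlinarith
    · simp
  · intro m hm m' hm'
    obtain ⟨j, _, rfl⟩ := Finset.mem_image.mp hm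
    obtain ⟨j', _, rfl⟩ := Finset.mem_image.mp hm'
    rw [hone, hone]
  · rw [Finset.card_image_of_injective _ hinj, Finset.card_range]

/-- Real primitive characters (`χ² = 1`, in particular `D = 1`). -/
theorem indep_real {D : ℕ} (hD : 1 ≤ D) (χ : DirichletCharacter ℂ D) (hχ : χ.IsPrimitive)
    (hreal : χ ^ 2 = 1) (K n : ℕ) (hKe : Even K)
    (hK : 2 * n ≤ ((Finset.Icc 1 (K / (50 * D))).filter (fun m => m.Coprime D)).card)
    (ℓ : Fin n → ℕ) (hℓ : StrictMono ℓ) (h3 : ∀ i, 3 ≤ ℓ i) (h4 : ∀ i, 2 * ℓ i + 4 ≤ K) :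
    LinearIndependent ℂ
      (fun i : Fin n => (twistedPeriod (ℓ i) χ : CuspForm 𝒮ℒ (K : ℤ) → ℂ)) := by
  classical
  have hsq : ∀ m : ℕ, m.Coprime D → χ (m : ZMod D) ^ 2 = 1 := by
    intro m hm
    have h1 : IsUnit (m : ZMod D) := (ZMod.isUnit_iff_coprime m D).mpr hm
    have h2 : (χ ^ 2) (m : ZMod D) = 1 := by
      rw [hreal]
      exact MulChar.one_apply h1
    rwa [MulChar.pow_apply' _ (by norm_num)] at h2
  refine indep_of_nodes hD χ hχ K n (K / (50 * D)) hKe ?_ _ ?_ ?_ hK ℓ hℓ h3 h4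
  · calc 50 * (K / (50 * D)) * D = (K / (50 * D)) * (50 * D) := by ring
      _ ≤ K := Nat.div_mul_le_self _ _
  · intro m hm
    rw [Finset.mem_filter, Finset.mem_Icc] at hm
    exact ⟨hm.1.1, hm.1.2, hm.2⟩
  · intro m hm m' hm'
    rw [Finset.mem_filter] at hm hm'
    rw [hsq m hm.2, hsq m' hm'.2]

end Pool.Agent.Helper54.TP
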