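import Pool.Agent.Helper54.TP.DefsOne

/-! MP_78efad_nt, D = 1, file (c): folding the period integral at `y = 1`. -/

open UpperHalfPlane ModularForm EisensteinSeries MeasureTheory Filter Asymptotics
open scoped MatrixGroups Real Nat Topology

namespace Pool.Agent.Helper54.TP

lemma ip_coe {y : ℝ} (hy : 0 < y) : ((ip y : ℍ) : ℂ) = Complex.I * y := by
  unfold ip
  rw [ofComplex_apply_of_im_pos]
  simpa using hy

lemma ip_im {y : ℝ} (hy : 0 < y) : (ip y).im = y := by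
  rw [← UpperHalfPlane.coe_im, ip_coe hy]
  simp

lemma continuousOn_ip : ContinuousOn ip (Set.Ioi (0 : ℝ)) := continuousOn_ofComplex_I_mul

/-- the functional equation on the imaginary axis -/
lemma f_inv (K : ℕ) (f : CuspForm 𝒮ℒ (K : ℤ)) {y : ℝ} (hy : 0 < y) :
    f (ip (y⁻¹)) = Complex.I ^ K * (y : ℂ) ^ K * f (ip y) := by
  have h1 : (f : ℍ → ℂ) ∣[(K : ℤ)] ((ModularGroup.S : SL(2, ℤ)) : GL (Fin 2) ℝ) = f :=
    SlashInvariantForm.slash_action_eqn f _ ⟨ModularGroup.S, rfl⟩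
  have h2 := congrFun h1 (ip y)
  rw [← SL_slash, SL_slash_apply, ModularGroup.denom_S, UpperHalfPlane.modular_S_smul] at h2
  have h3 : (UpperHalfPlane.mk (-(ip y : ℂ))⁻¹ (ip y).im_inv_neg_coe_pos) = ip (y⁻¹) := by
    ext
    rw [ip_coe (inv_pos.2 hy)]
    change (-(ip y : ℂ))⁻¹ = _
    rw [ip_coe hy]
    have hy0 : (y : ℂ) ≠ 0 := by exact_mod_cast hy.ne'
    push_cast
    field_simp
    rw [Complex.I_sq]
  rw [h3, ip_coe hy, zpow_neg, zpow_natCast] at h2
  have hy0 : (Complex.I * (y : ℂ)) ^ K ≠ 0 :=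
    pow_ne_zero _ (mul_ne_zero Complex.I_ne_zero (by exact_mod_cast hy.ne'))
  rw [← mul_pow, ← h2]
  field_simp

lemma tendsto_ip : Tendsto ip atTop atImInfty := by
  rw [atImInfty, tendsto_comap_iff]
  refine tendsto_id.congr' ?_
  filter_upwards [eventually_gt_atTop 0] with t ht
  simp [ip_im ht]

lemma isBigO_ip (K : ℕ) (f : CuspForm 𝒮ℒ (K : ℤ)) :
    (fun y : ℝ => f (ip y)) =O[atTop] fun y => Real.exp (-(2 * π) * y) := by
  have h1 := (CuspFormClass.exp_decay_atImInfty (h := 1) f one_pos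
    one_mem_strictPeriods_SL).comp_tendsto tendsto_ip
  refine h1.trans (EventuallyEq.isBigO ?_)
  filter_upwards [eventually_gt_atTop 0] with t ht
  simp [ip_im ht]

lemma int_one_infty (K t : ℕ) (f : CuspForm 𝒮ℒ (K : ℤ)) :
    IntegrableOn (fun y : ℝ => f (ip y) * (y : ℂ) ^ t) (Set.Ioi 1) := by
  have hcont : ContinuousOn (fun y : ℝ => f (ip y) * (y : ℂ) ^ t) (Set.Ici 1) := by
    refine ContinuousOn.mul ?_ (by fun_prop)
    have h1 : Continuous (f : ℍ → ℂ) := (CuspFormClass.holo f).continuous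
    exact h1.comp_continuousOn (continuousOn_ip.mono fun y hy =>
      lt_of_lt_of_le one_pos (Set.mem_Ici.1 hy))
  have haesm : AEStronglyMeasurable (fun y : ℝ => f (ip y) * (y : ℂ) ^ t)
      (volume.restrict (Set.Ioi 1)) :=
    (hcont.mono Set.Ioi_subset_Ici_self).aestronglyMeasurable measurableSet_Ioi
  refine (integrable_norm_iff haesm).1 ?_
  have hb : (0 : ℝ) < 2 * π - 1 := by
    have := Real.pi_gt_three
    linarith
  refine integrable_of_isBigO_exp_neg hb hcont.norm ?_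
  have h1 := isBigO_ip K f
  have h2 : (fun y : ℝ => ((y : ℂ) ^ t)) =O[atTop] fun y => Real.exp y := by
    have h3 := (Real.isLittleO_pow_exp_atTop (n := t)).isBigO
    refine IsBigO.trans (IsBigO.of_bound 1 ?_) h3
    filter_upwards with y
    simp
  have h4 := h1.mul h2
  refine h4.norm_left.trans (EventuallyEq.isBigO ?_)
  filter_upwards with y
  rw [← Real.exp_add]
  ring_nf

theorem fold (K t : ℕ) (ht : t + 2 ≤ K) (f : CuspForm 𝒮ℒ (K : ℤ)) :
    IntegrableOn (fun y : ℝ => f (ip y) * (y : ℂ) ^ t) (Set.Ioi 1) ∧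
    IntegrableOn (fun y : ℝ => f (ip y) * (y : ℂ) ^ t) (Set.Ioi 0) ∧
    ∫ y in Set.Ioi (0 : ℝ), f (ip y) * (y : ℂ) ^ t =
      ∫ y in Set.Ioi (1 : ℝ), f (ip y) * ((y : ℂ) ^ t + Complex.I ^ K * (y : ℂ) ^ (K - 2 - t)) := by
  have hi1 := int_one_infty K t f
  have hi2 := int_one_infty K (K - 2 - t) f
  -- the image of `(1,∞)` under inversion
  have himg : (fun x : ℝ => x⁻¹) '' Set.Ioi 1 = Set.Ioo 0 1 := by
    ext y
    simp only [Set.mem_image, Set.mem_Ioi, Set.mem_Ioo]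
    constructor
    · rintro ⟨x, hx, rfl⟩
      exact ⟨inv_pos.2 (by linarith), inv_lt_one_of_one_lt₀ hx⟩
    · rintro ⟨h0, h1⟩
      exact ⟨y⁻¹, (one_lt_inv₀ h0).2 h1, inv_inv y⟩
  have hder : ∀ x ∈ Set.Ioi (1 : ℝ), HasDerivWithinAt (fun x : ℝ => x⁻¹) (-(x ^ 2)⁻¹)
      (Set.Ioi 1) x := by
    intro x hx
    have : x ≠ 0 := by
      have := Set.mem_Ioi.1 hx
      positivity
    exact (hasDerivAt_inv this).hasDerivWithinAt
  have hinj : Set.InjOn (fun x : ℝ => x⁻¹) (Set.Ioi 1) := fun x _ y _ h => inv_injective h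
  have hcongr : Set.EqOn (fun x : ℝ => |-(x ^ 2)⁻¹| • (f (ip (x⁻¹)) * (((x⁻¹ : ℝ)) : ℂ) ^ t))
      (fun x : ℝ => Complex.I ^ K * (f (ip x) * (x : ℂ) ^ (K - 2 - t))) (Set.Ioi 1) := by
    intro x hx
    have hx0 : (0 : ℝ) < x := lt_trans one_pos hx
    have hx0' : (x : ℂ) ≠ 0 := by exact_mod_cast hx0.ne'
    beta_reduce
    rw [f_inv K f hx0, abs_neg, abs_of_pos (by positivity), Complex.real_smul]
    push_cast
    have hK : (x : ℂ) ^ K = (x : ℂ) ^ 2 * (x : ℂ) ^ t * (x : ℂ) ^ (K - 2 - t) := by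
      rw [← pow_add, ← pow_add]
      congr 1
      omega
    rw [hK, inv_pow]
    field_simp
  have hintI : IntegrableOn (fun y : ℝ => f (ip y) * (y : ℂ) ^ t) (Set.Ioo 0 1) := by
    rw [← himg, integrableOn_image_iff_integrableOn_abs_deriv_smul measurableSet_Ioi hder hinj,
      integrableOn_congr_fun hcongr measurableSet_Ioi]
    exact hi2.const_mul _
  have heqI : ∫ y in Set.Ioo (0 : ℝ) 1, f (ip y) * (y : ℂ) ^ t =
      ∫ x in Set.Ioi (1 : ℝ), Complex.I ^ K * (f (ip x) * (x : ℂ) ^ (K - 2 - t)) := by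
    rw [← himg, integral_image_eq_integral_abs_deriv_smul measurableSet_Ioi hder hinj]
    exact setIntegral_congr_fun measurableSet_Ioi hcongr
  have hintC : IntegrableOn (fun y : ℝ => f (ip y) * (y : ℂ) ^ t) (Set.Ioc 0 1) :=
    (integrableOn_Ioc_iff_integrableOn_Ioo (by finiteness)).2 hintI
  have hunion : Set.Ioi (0 : ℝ) = Set.Ioc 0 1 ∪ Set.Ioi 1 :=
    (Set.Ioc_union_Ioi_eq_Ioi zero_le_one).symm
  refine ⟨hi1, ?_, ?_⟩
  · rw [hunion]
    exact hintC.union hi1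
  · rw [hunion, setIntegral_union Set.Ioc_disjoint_Ioi_same measurableSet_Ioi hintC hi1,
      integral_Ioc_eq_integral_Ioo, heqI, ← integral_add (hi2.const_mul _) hi1]
    refine setIntegral_congr_fun measurableSet_Ioi fun x _ => ?_
    ring

end Pool.Agent.Helper54.TP
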