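import Pool.Agent.Helper54.TP.DefsOne

/-! MP_78efad_nt, D = 1, file (a): the Eisenstein series of weights 4 and 6 on the imaginary
axis. -/

open UpperHalfPlane ModularForm EisensteinSeries MeasureTheory
open scoped MatrixGroups Real Nat ArithmeticFunction.sigma

namespace Pool.Agent.Helper54.TP

/-- the divisor sum series on the imaginary axis -/
noncomputable def divSer (k : ℕ) (y : ℝ) : ℝ :=
  ∑' n : ℕ, (σ k (n + 1) : ℝ) * Real.exp (-(2 * π * y)) ^ (n + 1)

theorem divSer_summable (k : ℕ) {y : ℝ} (hy : 0 < y) :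
    Summable (fun n : ℕ => (σ k (n + 1) : ℝ) * Real.exp (-(2 * π * y)) ^ (n + 1)) := by
  have h0 : Summable (fun n : ℕ => (σ k n : ℝ) * Real.exp (-(2 * π * y)) ^ n) := by
    have hr : ‖Real.exp (-(2 * π * y))‖ < 1 := by
      rw [Real.norm_eq_abs, Real.abs_exp, Real.exp_lt_one_iff]
      have : 0 < 2 * π * y := by positivity
      linarith
    refine Summable.of_norm_bounded (summable_norm_pow_mul_geometric_of_norm_lt_one (k + 1) hr) ?_
    intro n
    rw [norm_mul, norm_mul]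
    gcongr
    rw [Real.norm_natCast, norm_pow, Real.norm_natCast]
    exact_mod_cast ArithmeticFunction.sigma_le_pow_succ k n
  exact (summable_nat_add_iff 1).mpr h0

theorem divSer_pos (k : ℕ) {y : ℝ} (hy : 0 < y) : 0 < divSer k y := by
  refine (divSer_summable k hy).tsum_pos (fun n => by positivity) 0 ?_
  have h1 : 0 < σ k (0 + 1) := by simp
  have h2 : (0 : ℝ) < (σ k (0 + 1) : ℝ) := by exact_mod_cast h1
  positivity

theorem divSer_lt (k : ℕ) {y z : ℝ} (hy : 0 < y) (hyz : y < z) : divSer k z < divSer k y := by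
  have hexp : Real.exp (-(2 * π * z)) < Real.exp (-(2 * π * y)) := by
    apply Real.exp_lt_exp.2
    have : 2 * π * y < 2 * π * z := by
      have := Real.pi_pos
      gcongr
    linarith
  refine Summable.tsum_lt_tsum (i := 0) (fun n => ?_) ?_ (divSer_summable k (hy.trans hyz))
    (divSer_summable k hy)
  · have := hexp.le
    gcongr
  · have h1 : 0 < σ k (0 + 1) := by simp
    have h2 : (0 : ℝ) < (σ k (0 + 1) : ℝ) := by exact_mod_cast h1
    simp only [zero_add, pow_one]
    simp only [zero_add] at h2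
    exact mul_lt_mul_of_pos_left hexp h2

theorem ip_coe' {y : ℝ} (hy : 0 < y) : ((ip y : ℍ) : ℂ) = Complex.I * y := by
  unfold ip
  rw [ofComplex_apply_of_im_pos]
  simpa using hy

theorem E_axis {k : ℕ} (hk : 3 ≤ k) (hk2 : Even k) {y : ℝ} (hy : 0 < y) :
    E hk (ip y) = ((1 - (2 * k / (bernoulli k : ℝ)) * divSer (k - 1) y : ℝ) : ℂ) := by
  rw [q_expansion_bernoulli hk hk2 (ip y)]
  have h1 : Complex.exp (2 * π * Complex.I * (ip y : ℂ)) = (Real.exp (-(2 * π * y)) : ℂ) := by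
    rw [ip_coe' hy, Complex.ofReal_exp]
    congr 1
    push_cast
    have : Complex.I * Complex.I = -1 := Complex.I_mul_I
    linear_combination (2 * π * y : ℂ) * this
  have h2 : ∑' n : ℕ+, (σ (k - 1) n : ℂ) * Complex.exp (2 * π * Complex.I * (ip y : ℂ)) ^ (n : ℤ) =
      ((divSer (k - 1) y : ℝ) : ℂ) := by
    simp_rw [zpow_natCast]
    rw [h1, tsum_pnat_eq_tsum_succ (f := fun n : ℕ => (σ (k - 1) n : ℂ) *
      (Real.exp (-(2 * π * y)) : ℂ) ^ n), divSer, Complex.ofReal_tsum]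
    congr 1
    ext n
    push_cast
    rfl
  rw [h2]
  push_cast
  ring

theorem bernoulli_four' : bernoulli 4 = -1 / 30 := by
  rw [bernoulli_eq_bernoulli'_of_ne_one (by norm_num), bernoulli'_four]

/-- real and imaginary parts on the imaginary axis; monotonicity -/
theorem E4_axis : ∃ e4 : ℝ → ℝ, (∀ y, 0 < y → E₄ (ip y) = (e4 y : ℂ)) ∧
    (∀ y, 0 < y → 1 < e4 y) ∧ StrictAntiOn e4 (Set.Ioi 0) := by
  refine ⟨fun y => 1 + 240 * divSer 3 y, fun y hy => ?_, fun y hy => ?_, fun y hy z hz hyz => ?_⟩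
  · have h := E_axis (k := 4) (by norm_num) (by decide) hy
    rw [bernoulli_four'] at h
    rw [h]
    congr 1
    norm_num
  · have := divSer_pos 3 hy
    simp only
    linarith
  · have := divSer_lt 3 hy hyz
    simp only
    linarith

theorem bernoulli_six' : bernoulli 6 = 1 / 42 := by decide +kernel

/-- `E₆(i) = 0` -/
theorem E6_one : E₆ (ip 1) = 0 := by
  have h1 : (E₆ : ℍ → ℂ) ∣[(6 : ℤ)] ((ModularGroup.S : SL(2, ℤ)) : GL (Fin 2) ℝ) = E₆ :=
    SlashInvariantForm.slash_action_eqn E₆ _ ⟨ModularGroup.S, rfl⟩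
  have h2 := congrFun h1 (ip 1)
  rw [← SL_slash, SL_slash_apply, ModularGroup.denom_S, UpperHalfPlane.modular_S_smul] at h2
  have h3 : (UpperHalfPlane.mk (-(ip 1 : ℂ))⁻¹ (ip 1).im_inv_neg_coe_pos) = ip 1 := by
    ext
    change (-(ip 1 : ℂ))⁻¹ = _
    rw [ip_coe' one_pos]
    push_cast
    rw [mul_one, inv_neg, Complex.inv_I, neg_neg]
  rw [h3, ip_coe' one_pos] at h2
  have h4 : (Complex.I * ((1 : ℝ) : ℂ)) ^ (-(6 : ℤ)) = -1 := by
    rw [Complex.ofReal_one, mul_one, zpow_neg]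
    have h5 : Complex.I ^ (6 : ℤ) = -1 := by
      have : Complex.I ^ (6 : ℕ) = -1 := by
        rw [show 6 = 4 + 2 by norm_num, pow_add, Complex.I_pow_four, Complex.I_sq, one_mul]
      exact_mod_cast this
    rw [h5]
    norm_num
  rw [h4] at h2
  have h6 : (E₆ (ip 1)) * 2 = 0 := by linear_combination -h2
  simpa using h6

theorem E6_axis : ∃ e6 : ℝ → ℝ, (∀ y, 0 < y → E₆ (ip y) = (e6 y : ℂ)) ∧ e6 1 = 0 ∧
    (∀ y, 0 < y → e6 y < 1) ∧ StrictMonoOn e6 (Set.Ioi 0) := by
  have hE : ∀ y : ℝ, 0 < y → E₆ (ip y) = ((1 - 504 * divSer 5 y : ℝ) : ℂ) := by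
    intro y hy
    have h := E_axis (k := 6) (by norm_num) (by decide) hy
    rw [bernoulli_six'] at h
    rw [h]
    congr 1
    norm_num
  refine ⟨fun y => 1 - 504 * divSer 5 y, hE, ?_, fun y hy => ?_, fun y hy z hz hyz => ?_⟩
  · have h := hE 1 one_pos
    rw [E6_one] at h
    exact_mod_cast h.symm
  · have := divSer_pos 5 hy
    simp only
    linarith
  · have := divSer_lt 5 hy hyz
    simp only
    linarith

end Pool.Agent.Helper54.TP
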