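import Mathlib

/-! MP_78efad_nt, files (C1) and (C2): three integrals and the sum of the error terms. -/

open MeasureTheory Filter Topology
open scoped Real Nat

namespace Pool.Agent.Helper54.TP

/-! ## (C1) integrals -/

theorem integral_main1 (l : ℕ) (a : ℝ) (ha : 0 < a) :
    IntegrableOn (fun y : ℝ => Real.exp (-(a * y)) * y ^ l) (Set.Ioi 0) ∧
    ∫ y in Set.Ioi (0 : ℝ), Real.exp (-(a * y)) * y ^ l = l ! / a ^ (l + 1) := by
  constructor
  · have h := integrableOn_rpow_mul_exp_neg_mul_rpow (p := 1) (s := (l : ℝ)) (b := a)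
      (by have : (0 : ℝ) ≤ l := Nat.cast_nonneg l
          linarith) one_pos ha
    refine h.congr_fun (fun y hy => ?_) measurableSet_Ioi
    simp only [Real.rpow_natCast, Real.rpow_one]
    rw [mul_comm, neg_mul]
  · have h := Real.integral_rpow_mul_exp_neg_mul_Ioi (a := (l : ℝ) + 1) (r := a)
      (by positivity) ha
    have h2 : ∫ y in Set.Ioi (0 : ℝ), Real.exp (-(a * y)) * y ^ l =
        ∫ t in Set.Ioi (0 : ℝ), t ^ ((l : ℝ) + 1 - 1) * Real.exp (-(a * t)) := by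
      refine setIntegral_congr_fun measurableSet_Ioi fun y hy => ?_
      simp only [add_sub_cancel_right, Real.rpow_natCast]
      ring
    rw [h2, h, Real.Gamma_nat_eq_factorial]
    have h3 : (1 / a) ^ ((l : ℝ) + 1) = (1 / a) ^ (l + 1) := by
      rw [← Real.rpow_natCast]
      push_cast
      rfl
    rw [h3, one_div, inv_pow]
    field_simp

theorem integral_main2 (K l : ℕ) (hl : l + 2 ≤ K) (a : ℝ) (ha : 0 < a) :
    IntegrableOn (fun y : ℝ => Real.exp (-(a / y)) * y ^ l * (y ^ K)⁻¹) (Set.Ioi 0) ∧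
    ∫ y in Set.Ioi (0 : ℝ), Real.exp (-(a / y)) * y ^ l * (y ^ K)⁻¹ =
      (K - 2 - l)! / a ^ (K - 1 - l) := by
  obtain ⟨h1, h2⟩ := integral_main1 (K - 2 - l) a ha
  have hcongr : ∀ y ∈ Set.Ioi (0 : ℝ),
      (|(-1 : ℝ)| * y ^ ((-1 : ℝ) - 1)) • (fun t : ℝ => Real.exp (-(a * t)) * t ^ (K - 2 - l))
        (y ^ (-1 : ℝ)) = Real.exp (-(a / y)) * y ^ l * (y ^ K)⁻¹ := by
    intro y hy
    have hy0 : 0 < y := hy
    have h3 : y ^ ((-1 : ℝ) - 1) = (y ^ 2)⁻¹ := by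
      rw [show ((-1 : ℝ) - 1) = -((2 : ℕ) : ℝ) by norm_num, Real.rpow_neg hy0.le,
        Real.rpow_natCast]
    have h4 : y ^ (-1 : ℝ) = y⁻¹ := Real.rpow_neg_one y
    rw [h3, h4]
    simp only [abs_neg, abs_one, one_mul, smul_eq_mul]
    have h5 : y ^ K = y ^ 2 * y ^ (K - 2 - l) * y ^ l := by
      rw [← pow_add, ← pow_add]
      congr 1
      omega
    rw [h5, inv_pow, div_eq_mul_inv]
    have h6 : y ^ l ≠ 0 := (pow_pos hy0 l).ne'
    field_simp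
  constructor
  · have h3 := (integrableOn_Ioi_comp_rpow_iff
      (fun t : ℝ => Real.exp (-(a * t)) * t ^ (K - 2 - l)) (p := -1) (by norm_num)).mpr h1
    exact h3.congr_fun hcongr measurableSet_Ioi
  · rw [← setIntegral_congr_fun measurableSet_Ioi hcongr]
    rw [integral_comp_rpow_Ioi (fun t : ℝ => Real.exp (-(a * t)) * t ^ (K - 2 - l))
      (by norm_num : (-1 : ℝ) ≠ 0), h2]
    congr 2
    omega

theorem integral_err (K l : ℕ) (hl1 : 1 ≤ l) (hl : l + 3 ≤ K) (hKe : Even K) (α δ : ℝ)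
    (hα : 0 < α) (hδ : 0 < δ) :
    IntegrableOn (fun y : ℝ => y ^ l * ((α ^ 2 * y ^ 2 + δ ^ 2) ^ (K / 2))⁻¹) (Set.Ioi 0) ∧
    ∫ y in Set.Ioi (0 : ℝ), y ^ l * ((α ^ 2 * y ^ 2 + δ ^ 2) ^ (K / 2))⁻¹ ≤
      (α ^ (l + 1))⁻¹ * (δ ^ (K - 1 - l))⁻¹ := by
  obtain ⟨k, hk⟩ := hKe
  have hK2 : K / 2 = k := by omega
  rw [hK2]
  -- the majorant
  set F : ℝ → ℝ := fun y => -(2 * α ^ 2)⁻¹ * (α ^ 2 * y ^ 2 + δ ^ 2)⁻¹ with hF
  set G : ℝ → ℝ := fun y => y * ((α ^ 2 * y ^ 2 + δ ^ 2) ^ 2)⁻¹ with hG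
  have hS : ∀ y : ℝ, 0 < α ^ 2 * y ^ 2 + δ ^ 2 := fun y => by positivity
  have hderiv : ∀ y : ℝ, HasDerivAt F (G y) y := by
    intro y
    have h1 : HasDerivAt (fun y : ℝ => α ^ 2 * y ^ 2 + δ ^ 2) (α ^ 2 * (2 * y)) y := by
      have := ((hasDerivAt_pow 2 y).const_mul (α ^ 2)).add_const (δ ^ 2)
      simpa using this
    have h2 := (h1.inv (hS y).ne').const_mul (-(2 * α ^ 2)⁻¹)
    have h3 : G y = -(2 * α ^ 2)⁻¹ * (-(α ^ 2 * (2 * y)) / (α ^ 2 * y ^ 2 + δ ^ 2) ^ 2) := by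
      rw [hG]
      have := (hS y).ne'
      field_simp
    rw [h3]
    exact h2
  have htend : Tendsto F atTop (𝓝 0) := by
    have h1 : Tendsto (fun y : ℝ => α ^ 2 * y ^ 2 + δ ^ 2) atTop atTop := by
      apply tendsto_atTop_add_const_right
      exact (tendsto_pow_atTop (by norm_num)).const_mul_atTop (by positivity)
    have h2 := (tendsto_inv_atTop_zero.comp h1).const_mul (-(2 * α ^ 2)⁻¹)
    simpa [hF, Function.comp_def] using h2
  have hGi : IntegrableOn G (Set.Ioi 0) := by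
    apply integrableOn_Ioi_deriv_of_nonneg (g := F) (l := 0)
    · exact (hderiv 0).continuousAt.continuousWithinAt
    · intro y _
      exact hderiv y
    · intro y hy
      have hy0 : (0 : ℝ) < y := hy
      have := hS y
      positivity
    · exact htend
  have hGv : ∫ y in Set.Ioi (0 : ℝ), G y = (2 * α ^ 2)⁻¹ * (δ ^ 2)⁻¹ := by
    rw [integral_Ioi_of_hasDerivAt_of_tendsto (f := F) (m := 0)
      ((hderiv 0).continuousAt.continuousWithinAt) (fun y _ => hderiv y) hGi htend]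
    simp [hF]
  set c : ℝ := (α ^ (l - 1))⁻¹ * (δ ^ (K - 3 - l))⁻¹ with hc
  have hc0 : 0 < c := by positivity
  have hle : ∀ y ∈ Set.Ioi (0 : ℝ), y ^ l * ((α ^ 2 * y ^ 2 + δ ^ 2) ^ k)⁻¹ ≤ c * G y := by
    intro y hy
    have hy0 : 0 < y := hy
    set S := α ^ 2 * y ^ 2 + δ ^ 2 with hSd
    have hSp : 0 < S := hS y
    have h1 : (α * y) ^ (l - 1) * δ ^ (K - 3 - l) ≤ S ^ (k - 2) := by
      have h2 : ((α * y) ^ (l - 1) * δ ^ (K - 3 - l)) ^ 2 ≤ (S ^ (k - 2)) ^ 2 := by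
        have h3 : ((α * y) ^ (l - 1) * δ ^ (K - 3 - l)) ^ 2 =
            (α ^ 2 * y ^ 2) ^ (l - 1) * (δ ^ 2) ^ (K - 3 - l) := by
          rw [mul_pow, ← pow_mul, ← pow_mul, mul_comm (l - 1) 2, mul_comm (K - 3 - l) 2,
            pow_mul, pow_mul, mul_pow]
        have h4 : (S ^ (k - 2)) ^ 2 = S ^ (l - 1) * S ^ (K - 3 - l) := by
          rw [← pow_mul, ← pow_add]
          congr 1
          omega
        rw [h3, h4]
        apply mul_le_mul
        · apply pow_le_pow_left₀ (by positivity)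
          rw [hSd]
          have : 0 < δ ^ 2 := by positivity
          linarith
        · apply pow_le_pow_left₀ (by positivity)
          rw [hSd]
          have : 0 < α ^ 2 * y ^ 2 := by positivity
          linarith
        · positivity
        · positivity
      exact (sq_le_sq₀ (by positivity) (by positivity)).mp h2
    have h5 : y ^ l = y * y ^ (l - 1) := by
      rw [← pow_succ']
      congr 1
      omega
    have h6 : S ^ k = S ^ 2 * S ^ (k - 2) := by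
      rw [← pow_add]
      congr 1
      omega
    rw [h5, h6, hG, hc]
    simp only []
    rw [← hSd]
    have h7 : y ^ (l - 1) * (S ^ (k - 2))⁻¹ ≤ (α ^ (l - 1))⁻¹ * (δ ^ (K - 3 - l))⁻¹ := by
      rw [← mul_inv, ← div_eq_mul_inv, div_le_iff₀ (by positivity), inv_mul_eq_div,
        le_div_iff₀ (by positivity)]
      calc y ^ (l - 1) * (α ^ (l - 1) * δ ^ (K - 3 - l))
          = (α * y) ^ (l - 1) * δ ^ (K - 3 - l) := by rw [mul_pow]; ring
        _ ≤ _ := h1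
    calc y * y ^ (l - 1) * (S ^ 2 * S ^ (k - 2))⁻¹
        = (y * (S ^ 2)⁻¹) * (y ^ (l - 1) * (S ^ (k - 2))⁻¹) := by rw [mul_inv]; ring
      _ ≤ (y * (S ^ 2)⁻¹) * ((α ^ (l - 1))⁻¹ * (δ ^ (K - 3 - l))⁻¹) := by
          apply mul_le_mul_of_nonneg_left h7
          positivity
      _ = _ := by ring
  have hnn : ∀ y ∈ Set.Ioi (0 : ℝ), 0 ≤ y ^ l * ((α ^ 2 * y ^ 2 + δ ^ 2) ^ k)⁻¹ := by
    intro y hy
    have hy0 : 0 < y := hy
    have := hS y
    positivity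
  have hcont : Continuous fun y : ℝ => y ^ l * ((α ^ 2 * y ^ 2 + δ ^ 2) ^ k)⁻¹ := by
    apply Continuous.mul (continuous_pow l)
    apply Continuous.inv₀
    · fun_prop
    · intro y
      exact (pow_pos (hS y) k).ne'
  have hint : IntegrableOn (fun y : ℝ => y ^ l * ((α ^ 2 * y ^ 2 + δ ^ 2) ^ k)⁻¹) (Set.Ioi 0) := by
    refine Integrable.mono' (hGi.const_mul c) hcont.aestronglyMeasurable ?_
    refine (ae_restrict_iff' measurableSet_Ioi).mpr (Eventually.of_forall fun y hy => ?_)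
    rw [Real.norm_eq_abs, abs_of_nonneg (hnn y hy)]
    exact hle y hy
  refine ⟨hint, ?_⟩
  calc ∫ y in Set.Ioi (0 : ℝ), y ^ l * ((α ^ 2 * y ^ 2 + δ ^ 2) ^ k)⁻¹
      ≤ ∫ y in Set.Ioi (0 : ℝ), c * G y :=
        setIntegral_mono_on hint (hGi.const_mul c) measurableSet_Ioi hle
    _ = c * ((2 * α ^ 2)⁻¹ * (δ ^ 2)⁻¹) := by rw [integral_const_mul, hGv]
    _ = 2⁻¹ * ((α ^ (l + 1))⁻¹ * (δ ^ (K - 1 - l))⁻¹) := by
        rw [hc]
        have h8 : α ^ (l + 1) = α ^ (l - 1) * α ^ 2 := by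
          rw [← pow_add]; congr 1; omega
        have h9 : δ ^ (K - 1 - l) = δ ^ (K - 3 - l) * δ ^ 2 := by
          rw [← pow_add]; congr 1; omega
        rw [h8, h9]
        field_simp
    _ ≤ _ := by
        have : 0 < (α ^ (l + 1))⁻¹ * (δ ^ (K - 1 - l))⁻¹ := by positivity
        linarith

/-! ## (C2) the sum of the error terms -/

/-- `1/c²` over the integers (`0` at `c = 0`). -/
theorem hasSum_int_sq : HasSum (fun c : ℤ => 1 / (c : ℝ) ^ 2) (π ^ 2 / 3) := by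
  have h1 : HasSum (fun n : ℕ => 1 / (((n : ℤ) : ℝ)) ^ 2) (π ^ 2 / 6) := by
    simpa using hasSum_zeta_two
  have h2 : HasSum (fun n : ℕ => 1 / (((-(n : ℤ) : ℤ) : ℝ)) ^ 2) (π ^ 2 / 6) := by
    simpa using hasSum_zeta_two
  have h3 := HasSum.of_nat_of_neg (f := fun c : ℤ => 1 / (c : ℝ) ^ 2) h1 h2
  have h4 : π ^ 2 / 3 = π ^ 2 / 6 + π ^ 2 / 6 - 1 / (((0 : ℤ) : ℝ)) ^ 2 := by
    simp
    ring
  rw [h4]
  exact h3

theorem inv_abs_pow_le (c : ℤ) (hc : c ≠ 0) (n : ℕ) (hn : 2 ≤ n) :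
    (|(c : ℝ)| ^ n)⁻¹ ≤ 1 / (c : ℝ) ^ 2 := by
  have h1 : (1 : ℝ) ≤ |(c : ℝ)| := by
    rw [← Int.cast_abs]
    exact_mod_cast Int.one_le_abs hc
  rw [one_div, ← sq_abs]
  apply inv_anti₀ (by positivity)
  exact pow_le_pow_right₀ h1 hn

theorem sum_err (D : ℕ) (hD : 1 ≤ D) (u : ℤ) (l p : ℕ) (hl : 1 ≤ l) (hp : 2 ≤ p) :
    Summable (fun v : Fin 2 → ℤ => if v 0 ≠ 0 ∧ v 0 * u + v 1 * D ≠ 0 then
        (|(v 0 : ℝ)| ^ (l + 1))⁻¹ * (|((v 0 * u + v 1 * D : ℤ) : ℝ)| ^ p)⁻¹ else 0) ∧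
    ∑' v : Fin 2 → ℤ, (if v 0 ≠ 0 ∧ v 0 * u + v 1 * D ≠ 0 then
        (|(v 0 : ℝ)| ^ (l + 1))⁻¹ * (|((v 0 * u + v 1 * D : ℤ) : ℝ)| ^ p)⁻¹ else 0) ≤ 12 := by
  set h : ℤ → ℝ := fun c => 1 / (c : ℝ) ^ 2 with hh
  have hnn : ∀ c, 0 ≤ h c := fun c => by rw [hh]; positivity
  have hs : Summable h := hasSum_int_sq.summable
  have ht : ∑' c, h c = π ^ 2 / 3 := hasSum_int_sq.tsum_eq
  have hss : Summable (fun x : ℤ × ℤ => h x.1 * h x.2) := hs.mul_of_nonneg hs hnn hnn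
  have htt : ∑' x : ℤ × ℤ, h x.1 * h x.2 = (π ^ 2 / 3) * (π ^ 2 / 3) := by
    rw [← ht]
    exact (hs.tsum_mul_tsum hs hss).symm
  set i : (Fin 2 → ℤ) → ℤ × ℤ := fun v => (v 0, v 0 * u + v 1 * D) with hi
  have hinj : Function.Injective i := by
    intro v w hvw
    simp only [hi, Prod.mk.injEq] at hvw
    obtain ⟨h0, h1⟩ := hvw
    have hD0 : (D : ℤ) ≠ 0 := by exact_mod_cast (by omega : D ≠ 0)
    have h2 : v 1 = w 1 := by
      rw [h0] at h1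
      have : v 1 * (D : ℤ) = w 1 * D := by linarith
      exact mul_right_cancel₀ hD0 this
    funext j
    fin_cases j
    · exact h0
    · exact h2
  have hle : ∀ v : Fin 2 → ℤ, (if v 0 ≠ 0 ∧ v 0 * u + v 1 * D ≠ 0 then
        (|(v 0 : ℝ)| ^ (l + 1))⁻¹ * (|((v 0 * u + v 1 * D : ℤ) : ℝ)| ^ p)⁻¹ else 0) ≤
        h (i v).1 * h (i v).2 := by
    intro v
    split_ifs with hv
    · apply mul_le_mul
      · exact inv_abs_pow_le _ hv.1 _ (by omega)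
      · exact inv_abs_pow_le _ hv.2 _ hp
      · positivity
      · exact hnn _
    · exact mul_nonneg (hnn _) (hnn _)
  have hnn2 : ∀ v : Fin 2 → ℤ, 0 ≤ (if v 0 ≠ 0 ∧ v 0 * u + v 1 * D ≠ 0 then
        (|(v 0 : ℝ)| ^ (l + 1))⁻¹ * (|((v 0 * u + v 1 * D : ℤ) : ℝ)| ^ p)⁻¹ else 0) := by
    intro v
    split_ifs
    · positivity
    · exact le_rfl
  have hsc : Summable ((fun x : ℤ × ℤ => h x.1 * h x.2) ∘ i) := hss.comp_injective hinj
  have hsum := Summable.of_nonneg_of_le hnn2 hle hsc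
  refine ⟨hsum, ?_⟩
  calc ∑' v : Fin 2 → ℤ, (if v 0 ≠ 0 ∧ v 0 * u + v 1 * D ≠ 0 then
        (|(v 0 : ℝ)| ^ (l + 1))⁻¹ * (|((v 0 * u + v 1 * D : ℤ) : ℝ)| ^ p)⁻¹ else 0)
      ≤ ∑' v : Fin 2 → ℤ, ((fun x : ℤ × ℤ => h x.1 * h x.2) ∘ i) v :=
        hsum.tsum_le_tsum hle hsc
    _ ≤ ∑' x : ℤ × ℤ, h x.1 * h x.2 :=
        tsum_comp_le_tsum_of_inj hss (fun x => mul_nonneg (hnn _) (hnn _)) hinj
    _ = (π ^ 2 / 3) * (π ^ 2 / 3) := htt
    _ ≤ 12 := by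
        have h1 : π < 3.15 := Real.pi_lt_d2
        have h2 : π ^ 2 ≤ 10 := by nlinarith [Real.pi_pos]
        have h3 : 0 ≤ π ^ 2 := by positivity
        nlinarith

end Pool.Agent.Helper54.TP
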