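import Pool.Agent.Helper54.TP.DefsOne

/-! MP_78efad_nt, D = 1, file (b): test forms with prescribed sign changes on the imaginary axis. -/

open UpperHalfPlane ModularForm EisensteinSeries MeasureTheory
open scoped MatrixGroups Real Nat

namespace Pool.Agent.Helper54.TP

/-- `F` is a level one modular form of weight `w`. -/
def IsMF (w : ℤ) (F : ℍ → ℂ) : Prop := ∃ g : ModularForm 𝒮ℒ w, ∀ z, g z = F z

lemma IsMF.mul {w w' : ℤ} {F F' : ℍ → ℂ} (h : IsMF w F) (h' : IsMF w' F') :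
    IsMF (w + w') (fun z => F z * F' z) := by
  obtain ⟨g, hg⟩ := h
  obtain ⟨g', hg'⟩ := h'
  refine ⟨g.mul g', fun z => ?_⟩
  rw [ModularForm.coe_mul, Pi.mul_apply, hg, hg']

lemma IsMF.one : IsMF 0 (fun _ => 1) := ⟨1, fun _ => rfl⟩

lemma IsMF.cast {w w' : ℤ} {F : ℍ → ℂ} (h : IsMF w F) (hw : w = w') : IsMF w' F := hw ▸ h

lemma IsMF.pow {w : ℤ} {F : ℍ → ℂ} (h : IsMF w F) (n : ℕ) : IsMF (n * w) (fun z => F z ^ n) := by
  induction n with
  | zero => simpa using IsMF.one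
  | succ n ih =>
    have h1 := ih.mul h
    have h2 : (n : ℤ) * w + w = ((n + 1 : ℕ) : ℤ) * w := by push_cast; ring
    rw [← h2]
    simpa only [pow_succ] using h1

lemma IsMF.prod {k : ℕ} {w : ℤ} {F : Fin k → ℍ → ℂ} (h : ∀ i, IsMF w (F i)) :
    IsMF (k * w) (fun z => ∏ i, F i z) := by
  induction k with
  | zero => simpa using IsMF.one
  | succ k ih =>
    have h1 := (h 0).mul (ih (F := fun i => F i.succ) fun i => h i.succ)
    have h2 : w + (k : ℤ) * w = ((k + 1 : ℕ) : ℤ) * w := by push_cast; ring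
    rw [← h2]
    simpa only [Fin.prod_univ_succ] using h1

lemma isMF_E4 : IsMF 4 (fun z => E₄ z) := ⟨E₄, fun _ => rfl⟩
lemma isMF_E6 : IsMF 6 (fun z => E₆ z) := ⟨E₆, fun _ => rfl⟩

lemma isMF_factor (t : ℂ) : IsMF 12 (fun z => E₆ z ^ 2 - t * E₄ z ^ 3) := by
  obtain ⟨a, ha⟩ := (isMF_E6.pow 2).cast (w' := 12) (by norm_num)
  obtain ⟨b, hb⟩ := (isMF_E4.pow 3).cast (w' := 12) (by norm_num)
  refine ⟨a - t • b, fun z => ?_⟩
  have h1 : (a - t • b) z = a z - t * b z := rfl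
  rw [h1, ha, hb]

lemma isMF_disc : IsMF 12 (fun z => ModularForm.discriminant z) := by
  obtain ⟨a, ha⟩ := (isMF_E6.pow 2).cast (w' := 12) (by norm_num)
  obtain ⟨b, hb⟩ := (isMF_E4.pow 3).cast (w' := 12) (by norm_num)
  refine ⟨(1 / 1728 : ℂ) • (b - a), fun z => ?_⟩
  have h1 : ((1 / 1728 : ℂ) • (b - a)) z = (1 / 1728) * (b z - a z) := rfl
  rw [h1, ha, hb]
  beta_reduce
  rw [ModularForm.discriminant_eq_E₄_cube_sub_E₆_sq]
  ring

theorem exists_test_aux (e4 e6 : ℝ → ℝ)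
    (h4 : ∀ y, 0 < y → E₄ (ip y) = (e4 y : ℂ)) (h41 : ∀ y, 0 < y → 1 < e4 y)
    (h4m : StrictAntiOn e4 (Set.Ioi 0))
    (h6 : ∀ y, 0 < y → E₆ (ip y) = (e6 y : ℂ)) (h60 : e6 1 = 0)
    (h61 : ∀ y, 0 < y → e6 y < 1) (h6m : StrictMonoOn e6 (Set.Ioi 0))
    (K d δ ε k : ℕ) (hK : K = 12 * d + 4 * δ + 6 * ε) (hk : k + 1 ≤ d)
    (ρ : Fin k → ℝ) (hρ : ∀ i, 1 < ρ i) :
    ∃ f : CuspForm 𝒮ℒ (K : ℤ), ∀ y : ℝ, 1 < y → ∃ c : ℝ, 0 < c ∧
      f (ip y) = ((c * ∏ i, (y - ρ i) : ℝ) : ℂ) := by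
  set t : Fin k → ℝ := fun i => e6 (ρ i) ^ 2 / e4 (ρ i) ^ 3 with ht
  have hMF := (((isMF_disc.pow (d - k - 1)).mul (isMF_E4.pow δ)).mul (isMF_E6.pow ε)).mul
    (IsMF.prod fun i => isMF_factor (t i))
  obtain ⟨g, hg⟩ := hMF.cast (w' := (K : ℤ) - 12) (by
    rw [hK]
    have : ((d - k - 1 : ℕ) : ℤ) = d - k - 1 := by omega
    rw [this]
    push_cast
    ring)
  refine ⟨CuspForm.ofMulDiscriminant g, fun y hy => ?_⟩
  have hy0 : 0 < y := by linarith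
  have hE6pos : ∀ x : ℝ, 1 < x → 0 < e6 x := by
    intro x hx
    rw [← h60]
    exact h6m (Set.mem_Ioi.2 one_pos) (Set.mem_Ioi.2 (by linarith)) hx
  have hE4pos : ∀ x : ℝ, 1 < x → 1 < e4 x := fun x hx => h41 x (by linarith)
  have hdisc : ModularForm.discriminant (ip y) = (((e4 y ^ 3 - e6 y ^ 2) / 1728 : ℝ) : ℂ) := by
    rw [ModularForm.discriminant_eq_E₄_cube_sub_E₆_sq, h4 y hy0, h6 y hy0]
    push_cast
    ring
  have hdpos : 0 < (e4 y ^ 3 - e6 y ^ 2) / 1728 := by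
    have h1 : 1 < e4 y ^ 3 := one_lt_pow₀ (hE4pos y hy) (by norm_num)
    have h2 : e6 y ^ 2 < 1 := by
      have := hE6pos y hy
      have := h61 y hy0
      nlinarith
    have : 0 < e4 y ^ 3 - e6 y ^ 2 := by linarith
    positivity
  -- the factors
  have hfac : ∀ i : Fin k, ∃ c : ℝ, 0 < c ∧ e6 y ^ 2 - t i * e4 y ^ 3 = c * (y - ρ i) := by
    intro i
    have hρi := hρ i
    have e1 : 0 < e6 (ρ i) := hE6pos _ hρi
    have e2 : 1 < e4 (ρ i) := hE4pos _ hρi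
    have e3 : 0 < e6 y := hE6pos _ hy
    have e4' : 1 < e4 y := hE4pos _ hy
    have hX : e6 y ^ 2 - t i * e4 y ^ 3 =
        (e6 y ^ 2 * e4 (ρ i) ^ 3 - e6 (ρ i) ^ 2 * e4 y ^ 3) / e4 (ρ i) ^ 3 := by
      simp only [ht]
      have : e4 (ρ i) ^ 3 ≠ 0 := by positivity
      field_simp
    rcases lt_trichotomy y (ρ i) with h | h | h
    · have m1 : e6 y < e6 (ρ i) := h6m (Set.mem_Ioi.2 hy0) (Set.mem_Ioi.2 (by linarith)) h
      have m2 : e4 (ρ i) < e4 y := h4m (Set.mem_Ioi.2 hy0) (Set.mem_Ioi.2 (by linarith)) h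
      have m3 : e6 y ^ 2 * e4 (ρ i) ^ 3 < e6 (ρ i) ^ 2 * e4 y ^ 3 := by
        apply mul_lt_mul''
        · exact pow_lt_pow_left₀ m1 e3.le (by norm_num)
        · exact pow_lt_pow_left₀ m2 (by linarith) (by norm_num)
        · positivity
        · positivity
      have m4 : e6 y ^ 2 - t i * e4 y ^ 3 < 0 := by
        rw [hX]
        exact div_neg_of_neg_of_pos (by linarith) (by positivity)
      refine ⟨(e6 y ^ 2 - t i * e4 y ^ 3) / (y - ρ i), div_pos_of_neg_of_neg m4 (by linarith), ?_⟩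
      rw [div_mul_cancel₀ _ (by linarith)]
    · refine ⟨1, one_pos, ?_⟩
      rw [hX, h]
      ring
    · have m1 : e6 (ρ i) < e6 y := h6m (Set.mem_Ioi.2 (by linarith)) (Set.mem_Ioi.2 hy0) h
      have m2 : e4 y < e4 (ρ i) := h4m (Set.mem_Ioi.2 (by linarith)) (Set.mem_Ioi.2 hy0) h
      have m3 : e6 (ρ i) ^ 2 * e4 y ^ 3 < e6 y ^ 2 * e4 (ρ i) ^ 3 := by
        apply mul_lt_mul''
        · exact pow_lt_pow_left₀ m1 e1.le (by norm_num)
        · exact pow_lt_pow_left₀ m2 (by linarith) (by norm_num)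
        · positivity
        · positivity
      have m4 : 0 < e6 y ^ 2 - t i * e4 y ^ 3 := by
        rw [hX]
        exact div_pos (by linarith) (by positivity)
      refine ⟨(e6 y ^ 2 - t i * e4 y ^ 3) / (y - ρ i), div_pos m4 (by linarith), ?_⟩
      rw [div_mul_cancel₀ _ (by linarith)]
  choose c hc1 hc2 using hfac
  have e3 : 0 < e6 y := hE6pos _ hy
  have e4' : 0 < e4 y := by linarith [hE4pos _ hy]
  refine ⟨(e4 y ^ 3 - e6 y ^ 2) / 1728 * (((e4 y ^ 3 - e6 y ^ 2) / 1728) ^ (d - k - 1) *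
    e4 y ^ δ * e6 y ^ ε * ∏ i, c i), ?_, ?_⟩
  · have : 0 < ∏ i, c i := Finset.prod_pos fun i _ => hc1 i
    positivity
  · rw [CuspForm.ofMulDiscriminant_apply, hg]
    beta_reduce
    rw [hdisc, h4 y hy0, h6 y hy0]
    have h1 : ∏ i, ((e6 y : ℂ) ^ 2 - (t i : ℂ) * (e4 y : ℂ) ^ 3) =
        ((∏ i, (c i * (y - ρ i)) : ℝ) : ℂ) := by
      push_cast
      refine Finset.prod_congr rfl fun i _ => ?_
      have := hc2 i
      exact_mod_cast this
    rw [h1, Finset.prod_mul_distrib]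
    push_cast
    ring

end Pool.Agent.Helper54.TP
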