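import Pool.Agent.Helper54.TP.Fold

/-! MP_78efad_nt, D = 1, file (f): the twist by the trivial character. -/

open UpperHalfPlane ModularForm EisensteinSeries MeasureTheory
open scoped MatrixGroups Real Nat

namespace Pool.Agent.Helper54.TP

theorem twist_one {K : ℤ} (χ : DirichletCharacter ℂ 1) (f : CuspForm 𝒮ℒ K) (y : ℝ) (hy : 0 < y) :
    twist χ f (Complex.I * y) = f (ip y) := by
  have h1 := (hasSum_qExpansion f one_pos one_mem_strictPeriods_SL (ip y)).tsum_eq
  rw [← h1]
  unfold twist
  refine tsum_congr fun m => ?_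
  have h2 : χ ((m : ℕ) : ZMod 1) = 1 := by
    rw [Subsingleton.elim ((m : ℕ) : ZMod 1) 1, map_one]
  rw [h2, one_mul]
  congr 1
  rw [Function.Periodic.qParam, ← Complex.exp_nat_mul, ip_coe hy]
  congr 1
  push_cast
  ring

end Pool.Agent.Helper54.TP
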