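import Pool.Agent.Helper54.TP.Fold
import Pool.Agent.Helper54.TP.TestForm
import Pool.Agent.Helper54.TP.TwistOne

/-! MP_78efad_nt, D = 1, file (g): the complete answer for the trivial character. -/

open UpperHalfPlane ModularForm EisensteinSeries MeasureTheory
open scoped MatrixGroups Real Nat

namespace Pool.Agent.Helper54.TP

lemma integral_pos_of_pos_off {h : ℝ → ℝ} (hint : IntegrableOn h (Set.Ioi 1)) (Z : Finset ℝ)
    (hpos : ∀ y, 1 < y → y ∉ Z → 0 < h y) : 0 < ∫ y in Set.Ioi (1 : ℝ), h y := by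
  have hZ : volume (Z : Set ℝ) = 0 := Z.countable_toSet.measure_zero _
  have hnn : 0 ≤ᵐ[volume.restrict (Set.Ioi (1 : ℝ))] h := by
    rw [Filter.EventuallyLE, ae_restrict_iff' measurableSet_Ioi]
    have h1 : ∀ᵐ y ∂(volume : Measure ℝ), y ∉ (Z : Set ℝ) := Z.countable_toSet.ae_notMem _
    filter_upwards [h1] with y hy hy1
    exact (hpos y hy1 (by simpa using hy)).le
  rw [setIntegral_pos_iff_support_of_nonneg_ae hnn hint]
  have h2 : Set.Ioi (1 : ℝ) \ (Z : Set ℝ) ⊆ Function.support h ∩ Set.Ioi 1 := by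
    intro y hy
    exact ⟨(hpos y hy.1 (by simpa using hy.2)).ne', hy.1⟩
  refine lt_of_lt_of_le ?_ (measure_mono h2)
  rw [measure_sdiff_null hZ]
  simp

lemma period_eq (χ : DirichletCharacter ℂ 1) (K t : ℕ) (ht : t + 2 ≤ K)
    (f : CuspForm 𝒮ℒ (K : ℤ)) :
    twistedPeriod t χ f = Complex.I ^ (t + 1) *
      ∫ y in Set.Ioi (1 : ℝ), f (ip y) * ((y : ℂ) ^ t + Complex.I ^ K * (y : ℂ) ^ (K - 2 - t)) := by
  rw [← (fold K t ht f).2.2, twistedPeriod, ← integral_const_mul]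
  refine setIntegral_congr_fun measurableSet_Ioi fun y hy => ?_
  rw [twist_one χ f y hy, mul_pow, pow_succ]
  ring

theorem level_one_aux
    (hdim : ∀ K n : ℕ, 1 ≤ n → n ≤ Module.finrank ℂ (CuspForm 𝒮ℒ (K : ℤ)) →
      Even K ∧ ∃ d δ ε : ℕ, K = 12 * d + 4 * δ + 6 * ε ∧ n ≤ d)
    (htest : ∀ (K d δ ε k : ℕ), K = 12 * d + 4 * δ + 6 * ε → k + 1 ≤ d →
      ∀ (ρ : Fin k → ℝ), (∀ i, 1 < ρ i) →
      ∃ f : CuspForm 𝒮ℒ (K : ℤ), ∀ y : ℝ, 1 < y → ∃ c : ℝ, 0 < c ∧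
      f (ip y) = ((c * ∏ i, (y - ρ i) : ℝ) : ℂ))
    (hsigns : ∀ (K n : ℕ) (ℓ : Fin n → ℕ), StrictMono ℓ → (∀ i, 2 * ℓ i + 4 ≤ K) →
      ∀ (s : ℝ), (s = 1 ∨ s = -1) → ∀ (b : Fin n → ℝ), b ≠ 0 →
      ∃ k : ℕ, k + 1 ≤ n ∧ ∃ ρ : Fin k → ℝ, (∀ i, 1 < ρ i) ∧ ∃ σ : ℝ, ∃ Z : Finset ℝ,
      ∀ y : ℝ, 1 < y → y ∉ Z →
        0 < σ * (∑ i, b i * (y ^ ℓ i + s * y ^ (K - 2 - ℓ i))) * ∏ i, (y - ρ i))
    (χ : DirichletCharacter ℂ 1) (K n : ℕ)
    (hn : n ≤ Module.finrank ℂ (CuspForm 𝒮ℒ (K : ℤ))) (ℓ : Fin n → ℕ) (hℓ : StrictMono ℓ)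
    (h4 : ∀ i, 2 * ℓ i + 4 ≤ K) :
    LinearIndependent ℂ (fun i : Fin n => (twistedPeriod (ℓ i) χ : CuspForm 𝒮ℒ (K : ℤ) → ℂ)) := by
  rw [Fintype.linearIndependent_iff]
  intro g hg i0
  have hn1 : 1 ≤ n := by
    have := i0.2
    omega
  obtain ⟨hKe, d, δ, ε, hK, hnd⟩ := hdim K n hn1 hn
  -- the sign
  obtain ⟨s, hs, hsI⟩ : ∃ s : ℝ, (s = 1 ∨ s = -1) ∧ Complex.I ^ K = (s : ℂ) := by
    obtain ⟨r, hr⟩ := hKe
    rw [hr, ← two_mul, pow_mul, Complex.I_sq]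
    rcases neg_one_pow_eq_or ℂ r with h | h
    · exact ⟨1, Or.inl rfl, by rw [h]; simp⟩
    · exact ⟨-1, Or.inr rfl, by rw [h]; simp⟩
  set c : Fin n → ℂ := fun i => g i * Complex.I ^ (ℓ i + 1) with hc
  -- every real vector `b` annihilating the real test integrals vanishes
  have key : ∀ b : Fin n → ℝ, (∀ f : CuspForm 𝒮ℒ (K : ℤ), ∀ F : ℝ → ℝ,
      (∀ y, 1 < y → f (ip y) = (F y : ℂ)) →
      ∑ i, b i * ∫ y in Set.Ioi (1 : ℝ), F y * (y ^ ℓ i + s * y ^ (K - 2 - ℓ i)) = 0) → b = 0 := by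
    intro b hb
    by_contra hb0
    obtain ⟨k, hk, ρ, hρ, σ, Z, hsg⟩ := hsigns K n ℓ hℓ h4 s hs b hb0
    obtain ⟨f, hf⟩ := htest K d δ ε k hK (by omega) ρ hρ
    choose! C hC1 hC2 using hf
    set F : ℝ → ℝ := fun y => C y * ∏ i, (y - ρ i) with hF
    have h0 := hb f F (fun y hy => hC2 y hy)
    have hintF : ∀ i, IntegrableOn (fun y : ℝ => F y * (y ^ ℓ i + s * y ^ (K - 2 - ℓ i)))
        (Set.Ioi 1) := by
      intro i
      have h1 := ((fold K (ℓ i) (by have := h4 i; omega) f).1.add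
        (((fold K (K - 2 - ℓ i) (by have := h4 i; omega) f).1).const_mul (s : ℂ))).re
      refine (integrableOn_congr_fun (fun y hy => ?_) measurableSet_Ioi).1 h1
      have hy' : (1 : ℝ) < y := hy
      simp only [Pi.add_apply]
      rw [hC2 y hy']
      have : ((C y * ∏ i, (y - ρ i) : ℝ) : ℂ) * (y : ℂ) ^ ℓ i +
          (s : ℂ) * (((C y * ∏ i, (y - ρ i) : ℝ) : ℂ) * (y : ℂ) ^ (K - 2 - ℓ i)) =
          ((F y * (y ^ ℓ i + s * y ^ (K - 2 - ℓ i)) : ℝ) : ℂ) := by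
        simp only [hF]
        push_cast
        ring
      rw [this]
      exact Complex.ofReal_re _
    have h1 : ∑ i, b i * ∫ y in Set.Ioi (1 : ℝ), F y * (y ^ ℓ i + s * y ^ (K - 2 - ℓ i)) =
        ∫ y in Set.Ioi (1 : ℝ), F y * ∑ i, b i * (y ^ ℓ i + s * y ^ (K - 2 - ℓ i)) := by
      rw [← Finset.sum_congr rfl fun i _ => integral_const_mul (b i) _,
        ← integral_finsetSum _ fun i _ => (hintF i).const_mul (b i)]
      refine setIntegral_congr_fun measurableSet_Ioi fun y _ => ?_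
      beta_reduce
      rw [Finset.mul_sum]
      refine Finset.sum_congr rfl fun i _ => ?_
      ring
    rw [h1] at h0
    have hint : IntegrableOn (fun y : ℝ => F y * ∑ i, b i * (y ^ ℓ i + s * y ^ (K - 2 - ℓ i)))
        (Set.Ioi 1) := by
      have h2 : IntegrableOn (fun y : ℝ => ∑ i, b i * (F y * (y ^ ℓ i + s * y ^ (K - 2 - ℓ i))))
          (Set.Ioi 1) := integrable_finsetSum _ fun i _ => (hintF i).const_mul (b i)
      refine (integrableOn_congr_fun (fun y _ => ?_) measurableSet_Ioi).1 h2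
      rw [Finset.mul_sum]
      refine Finset.sum_congr rfl fun i _ => ?_
      ring
    have hpos := integral_pos_of_pos_off (hint.const_mul σ) Z (fun y hy hyZ => by
      have h3 := hsg y hy hyZ
      have h4 := hC1 y hy
      have h5 : σ * (F y * ∑ i, b i * (y ^ ℓ i + s * y ^ (K - 2 - ℓ i))) =
        C y * ((σ * (∑ i, b i * (y ^ ℓ i + s * y ^ (K - 2 - ℓ i)))) * ∏ i, (y - ρ i)) := by
        simp only [hF]
        ring
      rw [h5]
      exact mul_pos h4 h3)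
    rw [integral_const_mul, h0, mul_zero] at hpos
    exact lt_irrefl _ hpos
  -- the relation in terms of real test integrals
  have hrel : ∀ f : CuspForm 𝒮ℒ (K : ℤ), ∀ F : ℝ → ℝ, (∀ y, 1 < y → f (ip y) = (F y : ℂ)) →
      ∑ i, c i * ((∫ y in Set.Ioi (1 : ℝ), F y * (y ^ ℓ i + s * y ^ (K - 2 - ℓ i)) : ℝ) : ℂ) = 0 := by
    intro f F hF
    have h1 := congrFun hg f
    simp only [Finset.sum_apply, Pi.smul_apply, smul_eq_mul, Pi.zero_apply] at h1
    rw [← h1]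
    refine Finset.sum_congr rfl fun i _ => ?_
    rw [period_eq χ K (ℓ i) (by have := h4 i; omega) f, hc, mul_assoc]
    congr 2
    rw [← integral_complex_ofReal]
    refine setIntegral_congr_fun measurableSet_Ioi fun y hy => ?_
    beta_reduce
    rw [hF y hy, hsI]
    push_cast
    ring
  have hre : (fun i => (c i).re) = 0 := by
    refine key _ fun f F hF => ?_
    have h1 := congrArg Complex.re (hrel f F hF)
    simpa [Complex.re_sum] using h1
  have him : (fun i => (c i).im) = 0 := by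
    refine key _ fun f F hF => ?_
    have h1 := congrArg Complex.im (hrel f F hF)
    simpa [Complex.im_sum] using h1
  have hc0 : c i0 = 0 := Complex.ext (congrFun hre i0) (congrFun him i0)
  have hI : Complex.I ^ (ℓ i0 + 1) ≠ 0 := pow_ne_zero _ Complex.I_ne_zero
  exact (mul_eq_zero.1 hc0).resolve_right hI

end Pool.Agent.Helper54.TP
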