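import Mathlib

/-! MP_78efad_nt: the numerical inequality. -/

set_option linter.all false

open scoped Real Nat

namespace Pool.Agent.Helper54.TP

lemma pow_self_div_exp_le_factorial (q : ℕ) : ((q : ℝ) / Real.exp 1) ^ q ≤ (q ! : ℝ) := by
  have h1 : (q : ℝ) ^ q / (q ! : ℝ) ≤ Real.exp q := Real.pow_div_factorial_le_exp (q : ℝ) (by positivity) q
  have h2 : (0 : ℝ) < (q ! : ℝ) := by exact_mod_cast Nat.factorial_pos q
  rw [div_pow, ← Real.exp_nat_mul, mul_one, div_le_iff₀ (Real.exp_pos _)]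
  rw [div_le_iff₀ h2] at h1
  linarith

lemma const_bound : (2 * π * Real.exp 1 / 25) ≤ (0.6851 : ℝ) := by
  have h1 := Real.pi_lt_d2
  have h2 := Real.exp_one_lt_d9
  have h3 := Real.pi_pos
  have h4 := Real.exp_pos 1
  nlinarith

theorem numerics59 (K n D M p : ℕ) (hD : 1 ≤ D) (hn : 1 ≤ n) (hM : 2 * n ≤ M)
    (hK : 50 * M * D ≤ K) (hp : K + 2 ≤ 2 * p) :
    (n : ℝ) * (6 * D) * (2 * n * 16 ^ M) * ((2 * π * M) ^ p * D ^ K) <
      (D : ℝ) ^ p * ((p - 1)! : ℝ) := by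
  obtain ⟨q, rfl⟩ : ∃ q, p = q + 1 := ⟨p - 1, by omega⟩
  rw [Nat.add_sub_cancel]
  have hq : 25 * M * D ≤ q := by nlinarith
  have hKq : K ≤ 2 * q := by omega
  have hD1 : (1 : ℝ) ≤ D := by exact_mod_cast hD
  have hn1 : (1 : ℝ) ≤ n := by exact_mod_cast hn
  have hMn : 2 * (n : ℝ) ≤ M := by exact_mod_cast hM
  have hM2 : (2 : ℝ) ≤ M := by linarith
  have hM2' : 2 ≤ M := by omega
  have hpi := Real.pi_pos
  have hDK : (D : ℝ) ^ K ≤ (D : ℝ) ^ (2 * q) := pow_le_pow_right₀ hD1 hKq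
  have hqR : 25 * (M : ℝ) * D ≤ q := by exact_mod_cast hq
  -- the power
  have h1 : (2 * π * M * D) ^ q ≤ (0.6851 : ℝ) ^ q * (q ! : ℝ) := by
    have h2 : 2 * π * M * D ≤ 0.6851 * ((q : ℝ) / Real.exp 1) := by
      have he := Real.exp_pos 1
      have h3 : 2 * π * M * D ≤ (2 * π * Real.exp 1 / 25) * ((q : ℝ) / Real.exp 1) := by
        have : (2 * π * Real.exp 1 / 25) * ((q : ℝ) / Real.exp 1) = 2 * π * (q / 25) := by
          field_simp
        rw [this]
        have : (M : ℝ) * D ≤ q / 25 := by linarith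
        calc 2 * π * M * D = 2 * π * (M * D) := by ring
          _ ≤ _ := mul_le_mul_of_nonneg_left this (by positivity)
      refine le_trans h3 (mul_le_mul_of_nonneg_right const_bound (by positivity))
    calc (2 * π * M * D) ^ q ≤ (0.6851 * ((q : ℝ) / Real.exp 1)) ^ q :=
          pow_le_pow_left₀ (by positivity) h2 q
      _ = (0.6851 : ℝ) ^ q * ((q : ℝ) / Real.exp 1) ^ q := by rw [mul_pow]
      _ ≤ _ := mul_le_mul_of_nonneg_left (pow_self_div_exp_le_factorial q) (by positivity)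
  have h4 : (0.6851 : ℝ) ^ q ≤ (0.6851 : ℝ) ^ (25 * M) := by
    apply pow_le_pow_of_le_one (by norm_num) (by norm_num)
    nlinarith
  have h5 : (0.6851 : ℝ) ^ (25 * M) * 16 ^ M ≤ ((1 : ℝ) / 780) ^ M := by
    rw [pow_mul, ← mul_pow]
    apply pow_le_pow_left₀ (by positivity)
    norm_num
  have h6 : (M : ℝ) ^ 3 ≤ 8 ^ M := by
    have : M ≤ 2 ^ M := Nat.lt_two_pow_self.le
    have h7 : (M : ℝ) ≤ 2 ^ M := by exact_mod_cast this
    calc (M : ℝ) ^ 3 ≤ ((2 : ℝ) ^ M) ^ 3 := pow_le_pow_left₀ (by positivity) h7 3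
      _ = 8 ^ M := by rw [← pow_mul, mul_comm M 3, pow_mul]; norm_num
  have h8 : (12 * (n : ℝ) ^ 2 * 16 ^ M * (2 * π * M)) * (0.6851 : ℝ) ^ q < 1 := by
    have hpi4 : π < 3.15 := Real.pi_lt_d2
    have h9 : 12 * (n : ℝ) ^ 2 * (2 * π * M) ≤ 18.9 * (M : ℝ) ^ 3 := by
      have h10 : 4 * (n : ℝ) ^ 2 ≤ (M : ℝ) ^ 2 := by nlinarith
      calc 12 * (n : ℝ) ^ 2 * (2 * π * M) = (3 * (4 * (n : ℝ) ^ 2)) * (2 * π * M) := by ring
        _ ≤ (3 * (M : ℝ) ^ 2) * (2 * 3.15 * M) := by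
            apply mul_le_mul (by linarith) _ (by positivity) (by positivity)
            apply mul_le_mul_of_nonneg_right _ (by positivity)
            linarith
        _ = _ := by ring
    calc (12 * (n : ℝ) ^ 2 * 16 ^ M * (2 * π * M)) * (0.6851 : ℝ) ^ q
        = (12 * (n : ℝ) ^ 2 * (2 * π * M)) * (16 ^ M * (0.6851 : ℝ) ^ q) := by ring
      _ ≤ (18.9 * 8 ^ M) * ((1 / 780) ^ M) := by
          apply mul_le_mul (le_trans h9 (by linarith)) _ (by positivity) (by positivity)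
          refine le_trans (mul_le_mul_of_nonneg_left h4 (by positivity)) ?_
          rw [mul_comm]
          exact h5
      _ = 18.9 * (8 / 780) ^ M := by
          rw [mul_assoc, ← mul_pow]
          norm_num
      _ ≤ 18.9 * (8 / 780) ^ 2 := by
          apply mul_le_mul_of_nonneg_left _ (by norm_num)
          exact pow_le_pow_of_le_one (by norm_num) (by norm_num) hM2'
      _ < 1 := by norm_num
  have hfac : (0 : ℝ) < (q ! : ℝ) := by exact_mod_cast Nat.factorial_pos q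
  calc (n : ℝ) * (6 * D) * (2 * n * 16 ^ M) * ((2 * π * M) ^ (q + 1) * D ^ K)
      ≤ (n : ℝ) * (6 * D) * (2 * n * 16 ^ M) * ((2 * π * M) ^ (q + 1) * (D : ℝ) ^ (2 * q)) := by
        apply mul_le_mul_of_nonneg_left _ (by positivity)
        exact mul_le_mul_of_nonneg_left hDK (by positivity)
    _ = (D : ℝ) ^ (q + 1) * ((12 * (n : ℝ) ^ 2 * 16 ^ M * (2 * π * M)) * (2 * π * M * D) ^ q) := by
        rw [mul_pow (2 * π * M) (D : ℝ) q]
        ring
    _ ≤ (D : ℝ) ^ (q + 1) * ((12 * (n : ℝ) ^ 2 * 16 ^ M * (2 * π * M)) *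
          ((0.6851 : ℝ) ^ q * (q ! : ℝ))) := by
        apply mul_le_mul_of_nonneg_left _ (by positivity)
        exact mul_le_mul_of_nonneg_left h1 (by positivity)
    _ = (D : ℝ) ^ (q + 1) * (((12 * (n : ℝ) ^ 2 * 16 ^ M * (2 * π * M)) * (0.6851 : ℝ) ^ q) *
          (q ! : ℝ)) := by ring
    _ < (D : ℝ) ^ (q + 1) * (1 * (q ! : ℝ)) := by
        apply mul_lt_mul_of_pos_left _ (by positivity)
        exact mul_lt_mul_of_pos_right h8 hfac
    _ = _ := by ring

end Pool.Agent.Helper54.TP
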