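import Pool.Agent.Helper54.TP.Node59
import Pool.Agent.Helper54.TP.Num59
import Pool.Agent.TWP.VandA59

/-! MP_78efad_nt: the linear independence theorem with general nodes. -/

set_option linter.all false

open UpperHalfPlane ModularForm EisensteinSeries MeasureTheory
open scoped MatrixGroups Real Nat

namespace Pool.Agent.Helper54.TP

/-- The core estimate: general nodes. -/
theorem main_nodes {D : ℕ} (hD : 1 ≤ D) (χ : DirichletCharacter ℂ D) (hχ : χ.IsPrimitive)
    (K n M : ℕ) (hKe : Even K) (hK : 50 * M * D ≤ K)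
    (m : Fin (n + n) → ℕ) (hm : Function.Injective m) (hm1 : ∀ j, 1 ≤ m j)
    (hmM : ∀ j, m j ≤ M) (hmD : ∀ j, (m j).Coprime D)
    (hms : ∀ i j, χ (m i) ^ 2 = χ (m j) ^ 2) (ℓ : Fin n → ℕ) (hℓ : StrictMono ℓ)
    (h3 : ∀ i, 3 ≤ ℓ i) (h4 : ∀ i, 2 * ℓ i + 4 ≤ K) :
    LinearIndependent ℂ
      (fun i : Fin n => (twistedPeriod (ℓ i) χ : CuspForm 𝒮ℒ (K : ℤ) → ℂ)) := by
  classical
  haveI : NeZero D := ⟨by omega⟩
  rw [Fintype.linearIndependent_iff]
  intro c hc i0
  have hn : 1 ≤ n := by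
    have := i0.pos
    omega
  have h2n : 2 * n ≤ M := by
    have h : (n + n) ≤ (Finset.Icc 1 M).card := by
      have := Finset.card_le_card_of_injOn (s := (Finset.univ : Finset (Fin (n + n))))
        (t := Finset.Icc 1 M) m (fun j _ => Finset.mem_coe.mpr (Finset.mem_Icc.mpr ⟨hm1 j, hmM j⟩))
        hm.injOn
      simpa using this
    simp at h
    omega
  have hK4 : 4 ≤ K := by nlinarith
  have hD1 : (1 : ℝ) ≤ D := by exact_mod_cast hD
  have hunit : ∀ j, IsUnit ((m j : ℕ) : ZMod D) := fun j =>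
    (ZMod.isUnit_iff_coprime (m j) D).mpr (hmD j)
  have hnorm : ∀ j, ‖χ ((m j : ℕ) : ZMod D)‖ = 1 := fun j => by
    obtain ⟨u, hu⟩ := hunit j
    rw [← hu]
    exact DirichletCharacter.unit_norm_eq_one χ u
  have hne : ∀ j, χ ((m j : ℕ) : ZMod D) ≠ 0 := fun j h => by
    have := hnorm j
    rw [h, norm_zero] at this
    exact zero_ne_one this
  have hinvχ : ∀ j, χ⁻¹ ((m j : ℕ) : ZMod D) = (χ ((m j : ℕ) : ZMod D))⁻¹ := fun j => by
    rw [MulChar.inv_apply_eq_inv, Ring.inverse_eq_inv']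
  have hgs : ‖gs χ‖ = Real.sqrt D := gs_norm hD χ hχ
  have hgs1 : 1 ≤ ‖gs χ‖ := by
    rw [hgs]
    exact Real.one_le_sqrt.mpr hD1
  have hgs0 : ‖gs χ‖ ≠ 0 := by
    intro h
    rw [h] at hgs1
    linarith
  set w : ℂ := (gs χ)⁻¹ * (starRingEnd ℂ) (gs χ) with hw
  have hw1 : ‖w‖ = 1 := by
    rw [hw, norm_mul, norm_inv, RCLike.norm_conj, inv_mul_cancel₀ hgs0]
  -- the constant value of `χ(m)^(-2)`
  set j0 : Fin (n + n) := Fin.castAdd n i0 with hj0
  set s : ℂ := (χ ((m j0 : ℕ) : ZMod D) ^ 2)⁻¹ with hs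
  have hs1 : ‖s‖ = 1 := by
    rw [hs, norm_inv, norm_pow, hnorm, one_pow, inv_one]
  have hss : ∀ j, (χ ((m j : ℕ) : ZMod D) ^ 2)⁻¹ = s := fun j => by rw [hs, hms j j0]
  -- the error
  set X : Fin n → ℝ := fun i => ‖c i‖ * (D : ℝ) ^ (K - 1 - ℓ i) with hX
  have hX0 : ∀ i, 0 ≤ X i := fun i => by simp only [hX]; positivity
  set S : ℝ := ∑ i, X i with hS
  -- the sparse polynomial
  set A : Fin n → ℂ := fun i => c i * Complex.I ^ (ℓ i + 1) *
    ((ℓ i)! : ℂ) / (2 * π) ^ (ℓ i + 1) with hA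
  set B : Fin n → ℂ := fun i => c i * Complex.I ^ (ℓ i + 1) * w * s *
    ((Complex.I ^ K)⁻¹ * (D : ℂ) ^ (2 * (K - 1 - ℓ i)) / (D : ℂ) ^ K * ((K - 2 - ℓ i)! : ℂ) /
    (2 * π) ^ (K - 1 - ℓ i)) with hB
  set e : Fin (n + n) → ℕ := Fin.append (fun i => ℓ i + 1) (fun i => K - 1 - ℓ i) with he
  set b : Fin (n + n) → ℂ := Fin.append A B with hb
  have heinj : Function.Injective e := by
    intro x y hxy
    induction x using Fin.addCases with
    | left x =>
      induction y using Fin.addCases with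
      | left y =>
        simp only [he, Fin.append_left] at hxy
        congr 1
        exact hℓ.injective (by omega)
      | right y =>
        simp only [he, Fin.append_left, Fin.append_right] at hxy
        have := h4 x
        have := h4 y
        omega
    | right x =>
      induction y using Fin.addCases with
      | left y =>
        simp only [he, Fin.append_left, Fin.append_right] at hxy
        have := h4 x
        have := h4 y
        omega
      | right y =>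
        simp only [he, Fin.append_right] at hxy
        have := h4 x
        have := h4 y
        congr 1
        exact hℓ.injective (by omega)
  have hval : ∀ j : Fin (n + n), ‖∑ k, b k * (((m j : ℕ) : ℂ)⁻¹) ^ (e k)‖ ≤ 6 * D * S := by
    intro j
    obtain ⟨P, hP⟩ := exists_poincare K hK4 (m j) (hm1 j)
    have h0 : ∑ i, c i * twistedPeriod (ℓ i) χ P = 0 := by
      have := congrFun hc P
      simpa using this
    have hmj : ((m j : ℕ) : ℂ) ≠ 0 := by
      have := hm1 j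
      exact_mod_cast (by omega : m j ≠ 0)
    have hsum : ∑ k, b k * (((m j : ℕ) : ℂ)⁻¹) ^ (e k) =
        ∑ i, (A i * (((m j : ℕ) : ℂ)⁻¹) ^ (ℓ i + 1) +
          B i * (((m j : ℕ) : ℂ)⁻¹) ^ (K - 1 - ℓ i)) := by
      rw [Fin.sum_univ_add, ← Finset.sum_add_distrib]
      simp only [hb, he, Fin.append_left, Fin.append_right]
    have hterm : ∀ i, c i * (Complex.I ^ (ℓ i + 1) * (2 * (mainA (ℓ i) (m j) * χ (m j) +
        w * mainB K (ℓ i) D (m j) * χ⁻¹ (m j)))) =
        2 * χ ((m j : ℕ) : ZMod D) * (A i * (((m j : ℕ) : ℂ)⁻¹) ^ (ℓ i + 1) +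
          B i * (((m j : ℕ) : ℂ)⁻¹) ^ (K - 1 - ℓ i)) := by
      intro i
      rw [hinvχ j]
      simp only [hA, hB, ← hss j, mainA, mainB]
      rw [mul_pow (2 * (π : ℂ)) ((m j : ℕ) : ℂ) (ℓ i + 1),
        mul_pow (2 * (π : ℂ)) ((m j : ℕ) : ℂ) (K - 1 - ℓ i), inv_pow, inv_pow]
      have := hne j
      field_simp
    have hbound : ‖2 * χ ((m j : ℕ) : ZMod D) * ∑ i, (A i * (((m j : ℕ) : ℂ)⁻¹) ^ (ℓ i + 1) +
          B i * (((m j : ℕ) : ℂ)⁻¹) ^ (K - 1 - ℓ i))‖ ≤ 12 * D * S := by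
      rw [Finset.mul_sum]
      have h1 : ∑ i, 2 * χ ((m j : ℕ) : ZMod D) * (A i * (((m j : ℕ) : ℂ)⁻¹) ^ (ℓ i + 1) +
          B i * (((m j : ℕ) : ℂ)⁻¹) ^ (K - 1 - ℓ i)) =
          -∑ i, c i * (twistedPeriod (ℓ i) χ P -
            Complex.I ^ (ℓ i + 1) * (2 * (mainA (ℓ i) (m j) * χ (m j) +
            w * mainB K (ℓ i) D (m j) * χ⁻¹ (m j)))) := by
        simp only [mul_sub, Finset.sum_sub_distrib]
        rw [h0, zero_sub, neg_neg]
        exact Finset.sum_congr rfl (fun i _ => (hterm i).symm)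
      rw [h1, norm_neg]
      refine le_trans (norm_sum_le _ _) ?_
      rw [hS, Finset.mul_sum]
      refine Finset.sum_le_sum (fun i _ => ?_)
      rw [norm_mul]
      have h5 := period_node hD χ hχ K (ℓ i) (m j) hKe (by have := h3 i; omega)
        (by have := h4 i; have := h3 i; omega) (hm1 j) (hmD j) P hP
      calc ‖c i‖ * _ ≤ ‖c i‖ * (12 * D * (D : ℝ) ^ (K - 1 - ℓ i)) :=
            mul_le_mul_of_nonneg_left h5 (norm_nonneg _)
        _ = 12 * D * X i := by simp only [hX]; ring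
    rw [hsum]
    rw [norm_mul, norm_mul, hnorm j, mul_one] at hbound
    have h2' : ‖(2 : ℂ)‖ = 2 := by simp
    rw [h2'] at hbound
    linarith
  -- extraction of the coefficients
  have hcoef : ∀ i, ‖B i‖ ≤ 2 * n * 16 ^ M * (M : ℝ) ^ (K - 1 - ℓ i) * (6 * D * S) := by
    intro i
    have h := Pool.Agent.TWP.VandA.coeff_bound_nodes m hm hm1 hmM e heinj b (6 * D * S) hval
      (Fin.natAdd n i)
    simp only [hb, he, Fin.append_right] at h
    refine le_trans h (le_of_eq ?_)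
    push_cast
    ring
  have hBn : ∀ i, ‖B i‖ = ‖c i‖ * ((D : ℝ) ^ (2 * (K - 1 - ℓ i)) / (D : ℝ) ^ K *
      ((K - 2 - ℓ i)! : ℝ) / (2 * π) ^ (K - 1 - ℓ i)) := by
    intro i
    simp only [hB]
    rw [norm_mul, norm_mul, norm_mul, norm_mul, hw1, hs1, norm_pow, Complex.norm_I, one_pow]
    simp only [norm_mul, norm_div, norm_inv, norm_pow, Complex.norm_I, one_pow, inv_one, one_mul,
      mul_one, Complex.norm_natCast, Complex.norm_real, Real.norm_eq_abs, Complex.norm_ofNat,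
      abs_of_pos Real.pi_pos]
  -- the conclusion
  by_contra hne0
  have hSpos : 0 < S := by
    rw [hS]
    apply Finset.sum_pos' (fun i _ => hX0 i)
    refine ⟨i0, Finset.mem_univ _, ?_⟩
    simp only [hX]
    have := norm_pos_iff.mpr hne0
    positivity
  have hlt : ∀ i, (n : ℝ) * X i < S := by
    intro i
    have h4i := h4 i
    have h3i := h3 i
    have h1 := hcoef i
    rw [hBn i] at h1
    have h2 := numerics59 K n D M (K - 1 - ℓ i) hD hn h2n hK (by omega)
    have hp1 : K - 1 - ℓ i - 1 = K - 2 - ℓ i := by omega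
    rw [hp1] at h2
    set p := K - 1 - ℓ i with hp
    have hpi := Real.pi_pos
    have hDp : (0 : ℝ) < (D : ℝ) := by linarith
    have hfac : (0 : ℝ) < ((K - 2 - ℓ i)! : ℝ) := by exact_mod_cast Nat.factorial_pos _
    -- `X_i D^p (p-1)! ≤ ...`
    have h6 : X i * ((D : ℝ) ^ p * ((K - 2 - ℓ i)! : ℝ)) ≤
        (6 * D) * (2 * n * 16 ^ M) * ((2 * π * M) ^ p * D ^ K) * S := by
      have h7 : ‖c i‖ * ((D : ℝ) ^ (2 * p) / (D : ℝ) ^ K * ((K - 2 - ℓ i)! : ℝ) / (2 * π) ^ p) =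
          X i * ((D : ℝ) ^ p * ((K - 2 - ℓ i)! : ℝ)) / ((2 * π) ^ p * D ^ K) := by
        simp only [hX]
        rw [← hp, two_mul, pow_add]
        field_simp
      rw [h7, div_le_iff₀ (by positivity)] at h1
      refine le_trans h1 (le_of_eq ?_)
      rw [mul_pow (2 * π) (M : ℝ) p]
      ring
    have h8 : 0 < (D : ℝ) ^ p * ((K - 2 - ℓ i)! : ℝ) := by positivity
    have h9 : (n : ℝ) * X i * ((D : ℝ) ^ p * ((K - 2 - ℓ i)! : ℝ)) <
        S * ((D : ℝ) ^ p * ((K - 2 - ℓ i)! : ℝ)) := by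
      calc (n : ℝ) * X i * ((D : ℝ) ^ p * ((K - 2 - ℓ i)! : ℝ))
          = (n : ℝ) * (X i * ((D : ℝ) ^ p * ((K - 2 - ℓ i)! : ℝ))) := by ring
        _ ≤ (n : ℝ) * ((6 * D) * (2 * n * 16 ^ M) * ((2 * π * M) ^ p * D ^ K) * S) :=
            mul_le_mul_of_nonneg_left h6 (by positivity)
        _ = ((n : ℝ) * (6 * D) * (2 * n * 16 ^ M) * ((2 * π * M) ^ p * D ^ K)) * S := by ring
        _ < ((D : ℝ) ^ p * ((K - 2 - ℓ i)! : ℝ)) * S := mul_lt_mul_of_pos_right h2 hSpos
        _ = _ := by ring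
    exact lt_of_mul_lt_mul_right h9 h8.le
  have hsumlt : ∑ i : Fin n, (n : ℝ) * X i < ∑ i : Fin n, S := by
    apply Finset.sum_lt_sum_of_nonempty
    · exact ⟨i0, Finset.mem_univ _⟩
    · intro i _
      exact hlt i
  rw [← Finset.mul_sum, Finset.sum_const, Finset.card_univ, Fintype.card_fin, nsmul_eq_mul,
    ← hS] at hsumlt
  exact lt_irrefl _ hsumlt

end Pool.Agent.Helper54.TP
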