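import Pool.Agent.Helper54.TP.Defs

/-! MP_78efad_nt, file (B): Poincaré series as cusp forms of level one. -/

set_option linter.all false

open UpperHalfPlane ModularForm EisensteinSeries MeasureTheory
open scoped MatrixGroups Real Nat Manifold

namespace Pool.Agent.Helper54.TP

lemma rowMat_row (v : gammaSet 1 1 0) : (rowMat v) 1 = v.1 := by
  have h := (((mem_gammaSet_one v.1).1 v.2).exists_SL2_row 1).choose_spec
  funext i
  fin_cases i
  · exact h.1
  · exact h.2

lemma eF_T (m : ℕ) (n : ℤ) (z : ℍ) : eF m (ModularGroup.T ^ n • z) = eF m z := by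
  unfold eF
  rw [ModularGroup.coe_T_zpow_smul_eq, mul_add, Complex.exp_add]
  have : Complex.exp (2 * π * Complex.I * m * (n : ℂ)) = 1 := by
    rw [Complex.exp_eq_one_iff]
    exact ⟨m * n, by push_cast; ring⟩
  rw [this, mul_one]

lemma eF_smul_eq (m : ℕ) (g g' : SL(2, ℤ)) (h : g 1 = g' 1) (z : ℍ) :
    eF m (g • z) = eF m (g' • z) := by
  have hc : (g * g'⁻¹) 1 0 = 0 := by
    have h0 : g 1 0 = g' 1 0 := congrFun h 0
    have h1 : g 1 1 = g' 1 1 := congrFun h 1
    rw [Matrix.SpecialLinearGroup.coe_mul, Matrix.SpecialLinearGroup.SL2_inv_expl]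
    simp [Matrix.mul_apply, Fin.sum_univ_two]
    rw [h0, h1]
    ring
  obtain ⟨n, hn⟩ := ModularGroup.exists_eq_T_zpow_of_c_eq_zero hc
  have h2 := hn (g' • z)
  rw [smul_smul, mul_assoc, inv_mul_cancel, mul_one] at h2
  rw [h2, eF_T]

lemma slash_eq_of_row (K : ℤ) (m : ℕ) (g g' : SL(2, ℤ)) (h : g 1 = g' 1) :
    (eF m ∣[K] g) = (eF m ∣[K] g') := by
  funext z
  rw [SL_slash_apply, SL_slash_apply, eF_smul_eq m g g' h z]
  congr 2
  have h0 : g 1 0 = g' 1 0 := congrFun h 0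
  have h1 : g 1 1 = g' 1 1 := congrFun h 1
  rw [ModularGroup.denom_apply, ModularGroup.denom_apply, h0, h1]

theorem pterm_eq (K : ℤ) (m : ℕ) (v : gammaSet 1 1 0) (γ : SL(2, ℤ)) (hγ : γ 1 = v.1) (z : ℍ) :
    pterm K m v z =
      ((v.1 0 : ℂ) * z + (v.1 1 : ℂ)) ^ (-K) * eF m (γ • z) := by
  unfold pterm
  rw [slash_eq_of_row K m (rowMat v) γ (by rw [rowMat_row, hγ]), SL_slash_apply, mul_comm]
  congr 2
  rw [ModularGroup.denom_apply, ← congrFun hγ 0, ← congrFun hγ 1]

lemma norm_eF_le (m : ℕ) (z : ℍ) : ‖eF m z‖ ≤ 1 := by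
  unfold eF
  rw [Complex.norm_exp]
  have : (2 * π * Complex.I * m * (z : ℂ)).re = -(2 * π * m * z.im) := by
    simp
  rw [this]
  apply Real.exp_le_one_iff.mpr
  have := z.im_pos
  have := Real.pi_pos
  have : 0 ≤ 2 * π * m * z.im := by positivity
  linarith

theorem norm_pterm_le (K : ℤ) (m : ℕ) (v : gammaSet 1 1 0) (z : ℍ) :
    ‖pterm K m v z‖ ≤ ‖(v.1 0 : ℂ) * z + (v.1 1 : ℂ)‖ ^ (-K) := by
  rw [pterm_eq K m v (rowMat v) (rowMat_row v), norm_mul, norm_zpow]
  exact mul_le_of_le_one_right (zpow_nonneg (norm_nonneg _) _) (norm_eF_le _ _)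

lemma norm_pterm_le_eis (K : ℤ) (m : ℕ) (v : gammaSet 1 1 0) (z : ℍ) :
    ‖pterm K m v z‖ ≤ ‖eisSummand K v.1 z‖ := by
  refine le_trans (norm_pterm_le K m v z) (le_of_eq ?_)
  rw [eisSummand, norm_zpow]

lemma summable_pterm (K : ℤ) (hK : 3 ≤ K) (m : ℕ) (z : ℍ) :
    Summable (fun v : gammaSet 1 1 0 => pterm K m v z) := by
  have h := (summable_norm_eisSummand hK z).subtype (· ∈ gammaSet 1 1 0)
  exact Summable.of_norm_bounded h (fun v => norm_pterm_le_eis K m v z)

/-- The Poincaré series (sum over all coprime pairs). -/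
noncomputable def Psum (K : ℤ) (m : ℕ) (z : ℍ) : ℂ := ∑' v : gammaSet 1 1 0, pterm K m v z

/-- right multiplication on coprime pairs -/
noncomputable def rowEquiv (γ : SL(2, ℤ)) : gammaSet 1 1 0 ≃ gammaSet 1 1 0 :=
  (gammaSetEquiv (0 : Fin 2 → ZMod 1) γ).trans (gammaSet_one_equiv 1 _ _)

lemma rowEquiv_val (γ : SL(2, ℤ)) (v : gammaSet 1 1 0) :
    (rowEquiv γ v).1 = Matrix.vecMul v.1 γ := rfl

lemma pterm_slash (K : ℤ) (m : ℕ) (v : gammaSet 1 1 0) (γ : SL(2, ℤ)) (z : ℍ) :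
    pterm K m v (γ • z) * denom γ z ^ (-K) = pterm K m (rowEquiv γ v) z := by
  have h1 : pterm K m v (γ • z) * denom γ z ^ (-K) = ((eF m ∣[K] rowMat v) ∣[K] γ) z := by
    rw [SL_slash_apply]
    rfl
  rw [h1, ← SlashAction.slash_mul]
  unfold pterm
  rw [slash_eq_of_row K m (rowMat v * γ) (rowMat (rowEquiv γ v))]
  rw [rowMat_row, rowEquiv_val, ← rowMat_row v]
  funext i
  rw [Matrix.SpecialLinearGroup.coe_mul]
  rfl

lemma Psum_slash (K : ℤ) (m : ℕ) (γ : SL(2, ℤ)) : (Psum K m) ∣[K] γ = Psum K m := by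
  funext z
  rw [SL_slash_apply]
  unfold Psum
  rw [← tsum_mul_right]
  simp_rw [pterm_slash]
  exact (rowEquiv γ).tsum_eq (fun v => pterm K m v z)

lemma mdiff_eF (m : ℕ) : MDiff (eF m) := by
  rw [UpperHalfPlane.mdifferentiable_iff]
  have h : DifferentiableOn ℂ (fun z : ℂ => Complex.exp (2 * π * Complex.I * m * z))
      {z | 0 < z.im} := by
    fun_prop
  refine h.congr (fun z hz => ?_)
  simp only [Function.comp_apply]
  unfold eF
  rw [ofComplex_apply_of_im_pos hz]

lemma mdiff_pterm (K : ℤ) (m : ℕ) (v : gammaSet 1 1 0) : MDiff (pterm K m v) := by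
  have := MDifferentiable.slash (mdiff_eF m) K ((rowMat v : SL(2, ℤ)) : GL (Fin 2) ℝ)
  exact this

lemma Psum_tendstoLocallyUniformly (K : ℤ) (hK : 3 ≤ K) (m : ℕ) :
    TendstoLocallyUniformly (fun (s : Finset (gammaSet 1 1 0)) z => ∑ v ∈ s, pterm K m v z)
      (Psum K m) Filter.atTop := by
  have hk' : (2 : ℝ) < K := by norm_cast
  have p_sum : Summable fun x : gammaSet 1 1 0 ↦ ‖x.val‖ ^ (-K) :=
    mod_cast (summable_one_div_norm_rpow hk').subtype (· ∈ gammaSet 1 1 0)
  rw [tendstoLocallyUniformly_iff_forall_isCompact]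
  intro C hC
  obtain ⟨A, B, hB, HABK⟩ := subset_verticalStrip_of_isCompact hC
  refine (tendstoUniformlyOn_tsum (hu := p_sum.mul_left <| r ⟨⟨A, B⟩, hB⟩ ^ (-K : ℝ))
    (fun p z hz ↦ ?_)).mono HABK
  refine le_trans (norm_pterm_le K m p z) ?_
  simpa only [one_div, ← zpow_neg, norm_zpow, ← Real.rpow_intCast,
    Int.cast_neg] using summand_bound_of_mem_verticalStrip (by positivity) p.1 hB hz

lemma mdiff_Psum (K : ℤ) (hK : 3 ≤ K) (m : ℕ) : MDiff (Psum K m) := by
  rw [UpperHalfPlane.mdifferentiable_iff]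
  have h1 : TendstoLocallyUniformlyOn (fun (s : Finset (gammaSet 1 1 0)) =>
      ((fun z : ℍ => ∑ v ∈ s, pterm K m v z) ∘ ofComplex)) (Psum K m ∘ ofComplex) Filter.atTop
      {z : ℂ | 0 < z.im} := by
    rw [← upperHalfPlaneSet, ← range_coe, ← Set.image_univ]
    apply TendstoLocallyUniformlyOn.comp (s := ⊤) _ _ _ (OpenPartialHomeomorph.continuousOn_symm _)
    · simp only [Set.top_eq_univ, tendstoLocallyUniformlyOn_univ]
      exact Psum_tendstoLocallyUniformly K hK m
    · rw [Set.top_eq_univ]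
      exact Set.mapsTo_univ _ _
  refine h1.differentiableOn (Filter.Eventually.of_forall fun s => ?_) isOpen_upperHalfPlaneSet
  have h2 : ∀ v : gammaSet 1 1 0, DifferentiableOn ℂ (pterm K m v ∘ ofComplex) {z | 0 < z.im} :=
    fun v => UpperHalfPlane.mdifferentiable_iff.mp (mdiff_pterm K m v)
  exact DifferentiableOn.fun_sum (fun v _ => h2 v)

/-! ## vanishing at infinity -/

lemma pterm_tendsto_zero (K : ℤ) (hK : 3 ≤ K) (m : ℕ) (hm : 1 ≤ m) (v : gammaSet 1 1 0) :
    Filter.Tendsto (fun z : ℍ => pterm K m v z) atImInfty (nhds 0) := by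
  rw [tendsto_zero_iff_norm_tendsto_zero]
  by_cases hc : v.1 0 = 0
  · -- exponential decay
    have hd : |(v.1 1 : ℝ)| = 1 := by
      have h := (mem_gammaSet_one v.1).1 v.2
      rw [hc, isCoprime_zero_left] at h
      rcases Int.isUnit_iff.mp h with h | h <;> rw [h] <;> simp
    have h1 : ∀ z : ℍ, ‖pterm K m v z‖ = Real.exp (-(2 * π * m * z.im)) := by
      intro z
      rw [pterm_eq K m v (rowMat v) (rowMat_row v), norm_mul, norm_zpow, hc]
      have h2 : ‖((0 : ℤ) : ℂ) * z + (v.1 1 : ℂ)‖ = 1 := by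
        rw [Int.cast_zero, zero_mul, zero_add]
        rw [show ((v.1 1 : ℤ) : ℂ) = (((v.1 1 : ℤ) : ℝ) : ℂ) by push_cast; rfl]
        rw [Complex.norm_real, Real.norm_eq_abs, hd]
      rw [h2, one_zpow, one_mul]
      obtain ⟨n, hn⟩ := ModularGroup.exists_eq_T_zpow_of_c_eq_zero (g := rowMat v)
        (by rw [congrFun (rowMat_row v) 0, hc])
      rw [hn z, eF_T]
      unfold eF
      rw [Complex.norm_exp]
      congr 1
      simp
    simp_rw [h1]
    have h3 : Filter.Tendsto (fun z : ℍ => 2 * π * m * z.im) atImInfty Filter.atTop := by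
      have h4 : (0 : ℝ) < 2 * π * m := by
        have := Real.pi_pos
        have : (0 : ℝ) < m := by exact_mod_cast hm
        positivity
      exact Filter.Tendsto.const_mul_atTop h4 Filter.tendsto_comap
    exact Real.tendsto_exp_neg_atTop_nhds_zero.comp h3
  · -- polynomial decay
    have h1 : ∀ z : ℍ, ‖pterm K m v z‖ ≤ (z.im) ^ (-K) := by
      intro z
      refine le_trans (norm_pterm_le K m v z) ?_
      have hz := z.im_pos
      have h2 : z.im ≤ ‖(v.1 0 : ℂ) * z + (v.1 1 : ℂ)‖ := by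
        refine le_trans ?_ (Complex.abs_im_le_norm _)
        have h3 : ((v.1 0 : ℂ) * z + (v.1 1 : ℂ)).im = (v.1 0 : ℝ) * z.im := by
          simp
        rw [h3, abs_mul, abs_of_pos hz]
        have h4 : (1 : ℝ) ≤ |(v.1 0 : ℝ)| := by
          exact_mod_cast Int.one_le_abs hc
        nlinarith
      rw [zpow_neg, zpow_neg]
      apply inv_anti₀ (zpow_pos hz _)
      exact zpow_le_zpow_left₀ (by omega) hz.le h2
    refine squeeze_zero (fun z => norm_nonneg _) h1 ?_
    have h5 : Filter.Tendsto (fun x : ℝ => x ^ (-K)) Filter.atTop (nhds 0) :=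
      tendsto_zpow_atTop_zero (by omega)
    exact h5.comp Filter.tendsto_comap

lemma Psum_T (K : ℤ) (m : ℕ) (n : ℤ) (z : ℍ) :
    Psum K m (ModularGroup.T ^ n • z) = Psum K m z := by
  have h := congrFun (Psum_slash K m (ModularGroup.T ^ n)) z
  rw [SL_slash_apply] at h
  have h1 : denom (ModularGroup.T ^ n : SL(2, ℤ)) z = 1 := by
    rw [ModularGroup.denom_apply, ModularGroup.coe_T_zpow]
    simp
  rw [h1, one_zpow, mul_one] at h
  exact h

lemma Psum_isZero (K : ℤ) (hK : 3 ≤ K) (m : ℕ) (hm : 1 ≤ m) : IsZeroAtImInfty (Psum K m) := by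
  have hk' : (2 : ℝ) < K := by norm_cast
  have p_sum : Summable fun x : gammaSet 1 1 0 ↦ ‖x.val‖ ^ (-K) :=
    mod_cast (summable_one_div_norm_rpow hk').subtype (· ∈ gammaSet 1 1 0)
  have hB : (0 : ℝ) < 1 := one_pos
  have h1 : Filter.Tendsto (Psum K m) (atImInfty ⊓ Filter.principal (verticalStrip 1 1))
      (nhds 0) := by
    have h2 := tendsto_tsum_of_dominated_convergence
      (𝓕 := atImInfty ⊓ Filter.principal (verticalStrip 1 1))
      (f := fun z (v : gammaSet 1 1 0) => pterm K m v z) (g := fun _ => (0 : ℂ))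
      (p_sum.mul_left <| r ⟨⟨1, 1⟩, hB⟩ ^ (-K : ℝ))
      (fun v => (pterm_tendsto_zero K hK m hm v).mono_left inf_le_left)
      (by
        refine Filter.eventually_inf_principal.mpr (Filter.Eventually.of_forall (fun z hz v => ?_))
        refine le_trans (norm_pterm_le K m v z) ?_
        simpa only [one_div, ← zpow_neg, norm_zpow, ← Real.rpow_intCast,
          Int.cast_neg] using summand_bound_of_mem_verticalStrip (by positivity) v.1 hB hz)
    rw [tsum_zero] at h2
    exact h2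
  rw [isZeroAtImInfty_iff]
  intro ε hε
  have h3 := Metric.tendsto_nhds.mp h1 ε hε
  rw [Filter.eventually_inf_principal] at h3
  obtain ⟨A, hA⟩ := (atImInfty_mem _).mp h3
  refine ⟨max A 1, fun z hz => ?_⟩
  obtain ⟨n, hn⟩ := ModularGroup_T_zpow_mem_verticalStrip z (N := 1) one_pos
  have h4 : ModularGroup.T ^ ((1 : ℕ) * n) • z ∈ verticalStrip 1 1 := by
    have := hn
    rw [mem_verticalStrip_iff] at this ⊢
    refine ⟨by simpa using this.1, ?_⟩
    rw [ModularGroup.im_T_zpow_smul]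
    exact le_trans (le_max_right _ _) hz
  have h5 := hA (ModularGroup.T ^ ((1 : ℕ) * n) • z)
    (by rw [ModularGroup.im_T_zpow_smul]; exact le_trans (le_max_left _ _) hz) h4
  rw [Psum_T, dist_zero_right] at h5
  exact h5.le

theorem exists_poincare (K : ℕ) (hK : 4 ≤ K) (m : ℕ) (hm : 1 ≤ m) :
    ∃ P : CuspForm 𝒮ℒ K, ∀ z : ℍ, HasSum (fun v : gammaSet 1 1 0 => pterm K m v z) (P z) := by
  have hK' : (3 : ℤ) ≤ (K : ℤ) := by exact_mod_cast (by omega : 3 ≤ K)
  refine ⟨{ toFun := Psum K m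
            slash_action_eq' := ?_
            holo' := mdiff_Psum K hK' m
            zero_at_cusps' := ?_ }, ?_⟩
  · intro A hA
    obtain ⟨A, rfl⟩ := hA
    exact Psum_slash K m A
  · intro c hc
    rw [Subgroup.IsArithmetic.isCusp_iff_isCusp_SL2Z] at hc
    rw [OnePoint.isZeroAt_iff_forall_SL2Z hc]
    intro γ _
    show IsZeroAtImInfty (Psum K m ∣[(K : ℤ)] γ)
    rw [Psum_slash]
    exact Psum_isZero K hK' m hm
  · intro z
    exact (summable_pterm K hK' m z).hasSum

end Pool.Agent.Helper54.TP
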