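import Pool.Agent.Helper54.TP.Defs
import Pool.Agent.Helper54.TP.Poin
import Pool.Agent.Helper54.TP.Ints

/-! MP_78efad_nt, file (C3): the period of a Poincaré series at the cusp `u/D`. -/

open UpperHalfPlane ModularForm EisensteinSeries MeasureTheory
open scoped MatrixGroups Real Nat Manifold

namespace Pool.Agent.Helper54.TP

lemma pt_coe_period (D : ℕ) (u : ℤ) {y : ℝ} (hy : 0 < y) :
    ((pt D u y : ℍ) : ℂ) = (u : ℂ) / D + Complex.I * y := by
  unfold pt
  rw [ofComplex_apply_of_im_pos]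
  have : ((u : ℂ) / D + Complex.I * y).im = y := by
    simp [Complex.div_im]
  rw [this]
  exact hy

lemma continuousOn_pt (D : ℕ) (u : ℤ) : ContinuousOn (pt D u) (Set.Ioi (0 : ℝ)) := by
  have h1 : ContinuousOn (ofComplex : ℂ → ℍ) {z : ℂ | 0 < z.im} := by
    have h := ofComplex.continuousOn
    refine h.mono fun z hz => ?_
    unfold ofComplex
    simp only [OpenPartialHomeomorph.symm_source]
    rw [Topology.IsOpenEmbedding.toOpenPartialHomeomorph_target]
    exact ⟨⟨z, hz⟩, rfl⟩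
  refine h1.comp (f := fun y : ℝ => (u : ℂ) / D + Complex.I * y) (by fun_prop) ?_
  intro y hy
  have : ((u : ℂ) / D + Complex.I * y).im = y := by
    simp [Complex.div_im]
  rw [← this] at hy
  exact hy

/-- `∫ ∑ = ∑ ∫` : integrability of a sum -/
lemma integrable_of_hasSum {ι : Type*} [Countable ι] {α : Type*} [MeasurableSpace α]
    {μ : Measure α} {F : ι → α → ℂ} {f : α → ℂ} (hF : ∀ i, Integrable (F i) μ)
    (hs : Summable fun i => ∫ a, ‖F i a‖ ∂μ) (hf : AEStronglyMeasurable f μ)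
    (hsum : ∀ᵐ a ∂μ, HasSum (fun i => F i a) (f a)) : Integrable f μ := by
  refine ⟨hf, ?_⟩
  rw [hasFiniteIntegral_iff_enorm]
  have h1 : ∫⁻ a, ‖f a‖ₑ ∂μ ≤ ∫⁻ a, ∑' i, ‖F i a‖ₑ ∂μ := by
    refine lintegral_mono_ae ?_
    filter_upwards [hsum] with a ha
    rw [← ha.tsum_eq]
    exact enorm_tsum_le_tsum_enorm
  refine h1.trans_lt ?_
  rw [lintegral_tsum (fun i => (hF i).1.enorm)]
  have h2 : ∀ i, ∫⁻ a, ‖F i a‖ₑ ∂μ = ENNReal.ofReal (∫ a, ‖F i a‖ ∂μ) := fun i =>
    (ofReal_integral_norm_eq_lintegral_enorm (hF i)).symm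
  simp only [h2]
  rw [← ENNReal.ofReal_tsum_of_nonneg (fun i => integral_nonneg fun a => norm_nonneg _) hs]
  exact ENNReal.ofReal_lt_top

lemma mem_gs (c d : ℤ) (h : IsCoprime c d) : (![c, d] : Fin 2 → ℤ) ∈ gammaSet 1 1 0 := by
  rw [mem_gammaSet_one]
  simpa using h

lemma pterm_neg (K : ℕ) (hK : Even K) (m : ℕ) (v w : gammaSet 1 1 0) (h : w.1 = -v.1) (z : ℍ) :
    pterm K m w z = pterm K m v z := by
  have h1 : (-(rowMat v)) 1 = w.1 := by
    rw [h, ← rowMat_row v]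
    ext i
    simp
  rw [pterm_eq K m w (-(rowMat v)) h1, pterm_eq K m v (rowMat v) (rowMat_row v),
    ModularGroup.SL_neg_smul, h]
  congr 1
  simp only [Pi.neg_apply, Int.cast_neg, zpow_neg, zpow_natCast]
  rw [show (-(v.1 0 : ℂ) * z + -(v.1 1 : ℂ)) = -((v.1 0 : ℂ) * z + (v.1 1 : ℂ)) by ring,
    hK.neg_pow]

/-- the `v`-th integrand -/
noncomputable def hv (K m D l : ℕ) (u : ℤ) (v : gammaSet 1 1 0) (y : ℝ) : ℂ :=
  pterm K m v (pt D u y) * (y : ℂ) ^ l

lemma hv_aesm (K m D l : ℕ) (u : ℤ) (v : gammaSet 1 1 0) :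
    AEStronglyMeasurable (hv K m D l u v) (volume.restrict (Set.Ioi (0 : ℝ))) := by
  refine ContinuousOn.aestronglyMeasurable ?_ measurableSet_Ioi
  refine ContinuousOn.mul ?_ (by fun_prop)
  have h1 : Continuous (pterm K m v) := (mdiff_pterm K m v).continuous
  exact h1.comp_continuousOn (continuousOn_pt D u)

/-- the two terms with `c = 0` -/
lemma hv_one (K m D l : ℕ) (u : ℤ) (v : gammaSet 1 1 0) (hv1 : v.1 = ![0, 1]) {y : ℝ}
    (hy : 0 < y) :
    hv K m D l u v y = Complex.exp (2 * π * Complex.I * m * (u / D)) *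
      ((Real.exp (-(2 * π * m * y)) * y ^ l : ℝ) : ℂ) := by
  unfold hv
  have h1 : (1 : SL(2, ℤ)) 1 = v.1 := by
    rw [hv1]
    ext i
    fin_cases i <;> simp
  rw [pterm_eq K m v 1 h1, hv1, one_smul]
  unfold eF
  rw [pt_coe_period D u hy]
  have h2 : (2 * π * Complex.I * m * ((u : ℂ) / D + Complex.I * y)) =
      2 * π * Complex.I * m * (u / D) + ((-(2 * π * m * y) : ℝ) : ℂ) := by
    push_cast
    linear_combination (2 * π * m * (y : ℂ)) * Complex.I_mul_I
  rw [h2, Complex.exp_add]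
  push_cast
  simp
  ring

lemma int_one (K m D l : ℕ) (hm : 1 ≤ m) (u : ℤ) (v : gammaSet 1 1 0) (hv1 : v.1 = ![0, 1]) :
    IntegrableOn (hv K m D l u v) (Set.Ioi 0) ∧
    ∫ y in Set.Ioi (0 : ℝ), hv K m D l u v y = (l ! : ℂ) / (2 * π * m) ^ (l + 1) *
      Complex.exp (2 * π * Complex.I * m * (u / D)) := by
  have hmpos : (0 : ℝ) < m := by exact_mod_cast hm
  have ha : 0 < 2 * π * (m : ℝ) := by positivity
  obtain ⟨h1, h2⟩ := integral_main1 l (2 * π * m) ha
  have hcongr : Set.EqOn (hv K m D l u v) (fun y : ℝ =>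
      Complex.exp (2 * π * Complex.I * m * (u / D)) *
      ((Real.exp (-(2 * π * m * y)) * y ^ l : ℝ) : ℂ)) (Set.Ioi 0) :=
    fun y hy => hv_one K m D l u v hv1 hy
  constructor
  · rw [integrableOn_congr_fun hcongr measurableSet_Ioi]
    exact (Integrable.ofReal h1).const_mul _
  · rw [setIntegral_congr_fun measurableSet_Ioi hcongr, integral_const_mul, integral_complex_ofReal, h2]
    push_cast
    ring

/-- the term with bottom row `(D, -u)` -/
lemma hv_two (K m D l : ℕ) (hD : 1 ≤ D) (u a b : ℤ) (hab : a * (-u) - b * D = 1)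
    (v : gammaSet 1 1 0) (hv1 : v.1 = ![(D : ℤ), -u]) {y : ℝ} (hy : 0 < y) :
    hv K m D l u v y = ((Complex.I ^ K)⁻¹ / (D : ℂ) ^ K *
      Complex.exp (2 * π * Complex.I * m * (a / D))) *
      ((Real.exp (-((2 * π * m / D ^ 2) / y)) * y ^ l * (y ^ K)⁻¹ : ℝ) : ℂ) := by
  unfold hv
  set γ : SL(2, ℤ) := ⟨!![a, b; (D : ℤ), -u], by
    rw [Matrix.det_fin_two_of]
    linarith⟩ with hγ
  have h1 : γ 1 = v.1 := by
    rw [hv1]
    ext i
    fin_cases i <;> simp [hγ]
  have hD0 : (D : ℂ) ≠ 0 := by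
    exact_mod_cast (by omega : D ≠ 0)
  have hy0 : (y : ℂ) ≠ 0 := by exact_mod_cast hy.ne'
  have hI : Complex.I ≠ 0 := Complex.I_ne_zero
  rw [pterm_eq K m v γ h1, hv1]
  unfold eF
  rw [UpperHalfPlane.coe_specialLinearGroup_apply, pt_coe_period D u hy]
  have h3 : (((![(D : ℤ), -u] : Fin 2 → ℤ) 0 : ℤ) : ℂ) * ((u : ℂ) / D + Complex.I * y) +
      (((![(D : ℤ), -u] : Fin 2 → ℤ) 1 : ℤ) : ℂ) = Complex.I * (D * y) := by
    simp
    field_simp
    ring
  have h4 : ((((algebraMap ℤ ℝ) (γ 0 0) : ℝ) : ℂ) * ((u : ℂ) / D + Complex.I * y) +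
      (((algebraMap ℤ ℝ) (γ 0 1) : ℝ) : ℂ)) /
      ((((algebraMap ℤ ℝ) (γ 1 0) : ℝ) : ℂ) * ((u : ℂ) / D + Complex.I * y) +
      (((algebraMap ℤ ℝ) (γ 1 1) : ℝ) : ℂ)) = (a : ℂ) / D + Complex.I / (D ^ 2 * y) := by
    have hab' : (a : ℂ) * (-u) - b * D = 1 := by exact_mod_cast hab
    have e1 : (((algebraMap ℤ ℝ) (γ 1 0) : ℝ) : ℂ) * ((u : ℂ) / D + Complex.I * y) +
      (((algebraMap ℤ ℝ) (γ 1 1) : ℝ) : ℂ) = Complex.I * (D * y) := by
      simp [hγ]
      field_simp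
      ring
    have hne : Complex.I * ((D : ℂ) * y) ≠ 0 := mul_ne_zero hI (mul_ne_zero hD0 hy0)
    rw [e1, div_eq_iff hne]
    simp only [hγ, Matrix.cons_val', Matrix.cons_val_zero, Matrix.cons_val_one, Matrix.of_apply]
    simp
    field_simp
    linear_combination (-1 : ℂ) * hab' + (-1 : ℂ) * Complex.I_sq
  rw [h3, h4]
  have h5 : (2 * π * Complex.I * m * ((a : ℂ) / D + Complex.I / (D ^ 2 * y))) =
      2 * π * Complex.I * m * (a / D) + ((-((2 * π * m / D ^ 2) / y) : ℝ) : ℂ) := by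
    push_cast
    field_simp
    linear_combination (m : ℂ) * Complex.I_sq
  rw [h5, Complex.exp_add, zpow_neg, zpow_natCast, mul_pow, mul_pow]
  push_cast
  field_simp

lemma int_two (K m D l : ℕ) (hD : 1 ≤ D) (hm : 1 ≤ m) (hl : l + 2 ≤ K) (u a b : ℤ)
    (hab : a * (-u) - b * D = 1) (v : gammaSet 1 1 0) (hv1 : v.1 = ![(D : ℤ), -u]) :
    IntegrableOn (hv K m D l u v) (Set.Ioi 0) ∧
    ∫ y in Set.Ioi (0 : ℝ), hv K m D l u v y =
      (Complex.I ^ K)⁻¹ * (D : ℂ) ^ (2 * (K - 1 - l)) / (D : ℂ) ^ K * ((K - 2 - l)! : ℂ) /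
          (2 * π * m) ^ (K - 1 - l) * Complex.exp (2 * π * Complex.I * m * (a / D)) := by
  have hmpos : (0 : ℝ) < m := by exact_mod_cast hm
  have hDpos : (0 : ℝ) < D := by exact_mod_cast hD
  have ha : 0 < 2 * π * (m : ℝ) / D ^ 2 := by positivity
  obtain ⟨h1, h2⟩ := integral_main2 K l hl (2 * π * m / D ^ 2) ha
  have hcongr : Set.EqOn (hv K m D l u v) (fun y : ℝ =>
      ((Complex.I ^ K)⁻¹ / (D : ℂ) ^ K *
      Complex.exp (2 * π * Complex.I * m * (a / D))) *
      ((Real.exp (-((2 * π * m / D ^ 2) / y)) * y ^ l * (y ^ K)⁻¹ : ℝ) : ℂ)) (Set.Ioi 0) :=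
    fun y hy => hv_two K m D l hD u a b hab v hv1 hy
  have hD0 : (D : ℂ) ≠ 0 := by
    exact_mod_cast (by omega : D ≠ 0)
  have hm0 : (m : ℂ) ≠ 0 := by
    exact_mod_cast (by omega : m ≠ 0)
  constructor
  · rw [integrableOn_congr_fun hcongr measurableSet_Ioi]
    exact (Integrable.ofReal h1).const_mul _
  · rw [setIntegral_congr_fun measurableSet_Ioi hcongr, integral_const_mul,
      integral_complex_ofReal, h2]
    push_cast
    rw [div_pow, ← pow_mul]
    have hpi : (π : ℂ) ≠ 0 := by exact_mod_cast Real.pi_ne_zero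
    field_simp

/-- the error terms -/
lemma int_err (K m D l : ℕ) (hKe : Even K) (hl1 : 1 ≤ l) (hl : l + 3 ≤ K) (hD : 1 ≤ D) (u : ℤ)
    (v : gammaSet 1 1 0) (hc : v.1 0 ≠ 0) (he : v.1 0 * u + v.1 1 * D ≠ 0) :
    IntegrableOn (hv K m D l u v) (Set.Ioi 0) ∧
    ∫ y in Set.Ioi (0 : ℝ), ‖hv K m D l u v y‖ ≤ (D : ℝ) ^ (K - 1 - l) *
      ((|(v.1 0 : ℝ)| ^ (l + 1))⁻¹ * (|((v.1 0 * u + v.1 1 * D : ℤ) : ℝ)| ^ (K - 1 - l))⁻¹) := by
  have hDpos : (0 : ℝ) < D := by exact_mod_cast hD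
  have hα : 0 < |(v.1 0 : ℝ)| := by
    rw [abs_pos]
    exact_mod_cast hc
  have hE : 0 < |((v.1 0 * u + v.1 1 * D : ℤ) : ℝ)| := by
    rw [abs_pos]
    exact_mod_cast he
  have hδ : 0 < |((v.1 0 * u + v.1 1 * D : ℤ) : ℝ)| / D := div_pos hE hDpos
  obtain ⟨h1, h2⟩ := integral_err K l hl1 hl hKe _ _ hα hδ
  have hbd : ∀ y ∈ Set.Ioi (0 : ℝ), ‖hv K m D l u v y‖ ≤ y ^ l * ((|(v.1 0 : ℝ)| ^ 2 * y ^ 2 +
      (|((v.1 0 * u + v.1 1 * D : ℤ) : ℝ)| / D) ^ 2) ^ (K / 2))⁻¹ := by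
    intro y hy
    have hy' : (0 : ℝ) < y := hy
    unfold hv
    rw [norm_mul, norm_pow, Complex.norm_real, Real.norm_of_nonneg hy'.le, mul_comm]
    refine mul_le_mul_of_nonneg_left ?_ (pow_nonneg hy'.le _)
    refine (norm_pterm_le K m v _).trans (le_of_eq ?_)
    rw [zpow_neg, zpow_natCast, pt_coe_period D u hy']
    congr 1
    obtain ⟨k, hk⟩ := hKe
    have hk2 : K / 2 = k := by omega
    rw [hk2, hk, ← two_mul, pow_mul]
    congr 1
    rw [Complex.sq_norm, Complex.normSq_apply]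
    have e1 : ((v.1 0 : ℂ) * ((u : ℂ) / D + Complex.I * y) + (v.1 1 : ℂ)).re =
        ((v.1 0 * u + v.1 1 * D : ℤ) : ℝ) / D := by
      simp [Complex.div_re]
      field_simp
    have e2 : ((v.1 0 : ℂ) * ((u : ℂ) / D + Complex.I * y) + (v.1 1 : ℂ)).im =
        (v.1 0 : ℝ) * y := by
      simp [Complex.div_im]
    rw [e1, e2, div_pow, sq_abs, sq_abs]
    ring
  have hint : IntegrableOn (hv K m D l u v) (Set.Ioi 0) := by
    refine Integrable.mono' h1 (hv_aesm K m D l u v) ?_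
    rw [ae_restrict_iff' measurableSet_Ioi]
    exact Filter.Eventually.of_forall hbd
  refine ⟨hint, ?_⟩
  calc ∫ y in Set.Ioi (0 : ℝ), ‖hv K m D l u v y‖
      ≤ ∫ y in Set.Ioi (0 : ℝ), y ^ l * ((|(v.1 0 : ℝ)| ^ 2 * y ^ 2 +
      (|((v.1 0 * u + v.1 1 * D : ℤ) : ℝ)| / D) ^ 2) ^ (K / 2))⁻¹ :=
        setIntegral_mono_on hint.norm h1 measurableSet_Ioi hbd
    _ ≤ _ := h2
    _ = _ := by
        rw [div_pow]
        field_simp

/-- classification of the exceptional bottom rows -/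
lemma classify (D : ℕ) (hD : 1 ≤ D) (u : ℤ) (hu : IsCoprime u (D : ℤ)) (v : gammaSet 1 1 0)
    (h : ¬ (v.1 0 ≠ 0 ∧ v.1 0 * u + v.1 1 * D ≠ 0)) :
    v.1 = ![0, 1] ∨ v.1 = -![0, 1] ∨ v.1 = ![(D : ℤ), -u] ∨ v.1 = -![(D : ℤ), -u] := by
  have hcop : IsCoprime (v.1 0) (v.1 1) := (mem_gammaSet_one v.1).1 v.2
  by_cases hc : v.1 0 = 0
  · rw [hc, isCoprime_zero_left, Int.isUnit_iff] at hcop
    rcases hcop with h1 | h1
    · left
      ext i
      fin_cases i
      · simpa using hc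
      · simpa using h1
    · right; left
      ext i
      fin_cases i
      · simpa using hc
      · simpa using h1
  · have he : v.1 0 * u + v.1 1 * D = 0 := by
      by_contra he
      exact h ⟨hc, he⟩
    have hD0 : (D : ℤ) ≠ 0 := by exact_mod_cast (by omega : D ≠ 0)
    have h1 : (D : ℤ) ∣ v.1 0 := by
      have : (D : ℤ) ∣ v.1 0 * u := ⟨-v.1 1, by linarith⟩
      exact hu.symm.dvd_of_dvd_mul_right this
    obtain ⟨t, ht⟩ := h1
    have h2 : v.1 1 = -(t * u) := by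
      rw [ht] at he
      have : (D : ℤ) * (t * u + v.1 1) = 0 := by linarith
      rcases mul_eq_zero.1 this with h3 | h3
      · exact absurd h3 hD0
      · linarith
    have h3 : IsUnit t := by
      rw [ht, h2] at hcop
      have h4 : t ∣ (D : ℤ) * t := Dvd.intro_left _ rfl
      have h5 : t ∣ -(t * u) := (Dvd.intro _ rfl : t ∣ t * u).neg_right
      exact hcop.isUnit_of_dvd' h4 h5
    rcases Int.isUnit_iff.1 h3 with h4 | h4
    · right; right; left
      ext i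
      fin_cases i
      · simp [ht, h4]
      · simp [h2, h4]
    · right; right; right
      ext i
      fin_cases i
      · simp [ht, h4]
      · simp [h2, h4]

theorem period_poincare (K l D m : ℕ) (hKe : Even K) (hl1 : 1 ≤ l) (hl : l + 3 ≤ K) (hD : 1 ≤ D)
    (hm : 1 ≤ m) (u a b : ℤ) (hab : a * (-u) - b * D = 1) (P : CuspForm 𝒮ℒ K)
    (hP : ∀ z : ℍ, HasSum (fun v : gammaSet 1 1 0 => pterm K m v z) (P z)) :
    IntegrableOn (fun y : ℝ => P (pt D u y) * (y : ℂ) ^ l) (Set.Ioi 0) ∧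
    ‖(∫ y in Set.Ioi (0 : ℝ), P (pt D u y) * (y : ℂ) ^ l) -
      2 * ((l ! : ℂ) / (2 * π * m) ^ (l + 1) * Complex.exp (2 * π * Complex.I * m * (u / D)) +
        (Complex.I ^ K)⁻¹ * (D : ℂ) ^ (2 * (K - 1 - l)) / (D : ℂ) ^ K * ((K - 2 - l)! : ℂ) /
          (2 * π * m) ^ (K - 1 - l) * Complex.exp (2 * π * Complex.I * m * (a / D)))‖ ≤
      12 * (D : ℝ) ^ (K - 1 - l) := by
  have hu : IsCoprime u (D : ℤ) := ⟨-a, -b, by linarith⟩
  have hD0 : (D : ℤ) ≠ 0 := by exact_mod_cast (by omega : D ≠ 0)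
  -- the four exceptional rows
  set v1 : gammaSet 1 1 0 := ⟨![0, 1], mem_gs 0 1 isCoprime_one_right⟩ with hv1
  set v2 : gammaSet 1 1 0 := ⟨-![0, 1], by
    have := mem_gs 0 (-1) (isCoprime_zero_left.2 (by decide))
    simpa using this⟩ with hv2
  set v3 : gammaSet 1 1 0 := ⟨![(D : ℤ), -u], mem_gs D (-u) hu.symm.neg_right⟩ with hv3
  set v4 : gammaSet 1 1 0 := ⟨-![(D : ℤ), -u], by
    have := mem_gs (-D) u hu.symm.neg_left
    simpa using this⟩ with hv4
  have h12 : v1 ≠ v2 := by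
    intro h
    have := congrFun (congrArg Subtype.val h) 1
    simp [hv1, hv2] at this
  have h13 : v1 ≠ v3 := by
    intro h
    have := congrFun (congrArg Subtype.val h) 0
    simp [hv1, hv3] at this
    omega
  have h14 : v1 ≠ v4 := by
    intro h
    have := congrFun (congrArg Subtype.val h) 0
    simp [hv1, hv4] at this
    omega
  have h23 : v2 ≠ v3 := by
    intro h
    have := congrFun (congrArg Subtype.val h) 0
    simp [hv2, hv3] at this
    omega
  have h24 : v2 ≠ v4 := by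
    intro h
    have := congrFun (congrArg Subtype.val h) 0
    simp [hv2, hv4] at this
    omega
  have h34 : v3 ≠ v4 := by
    intro h
    have := congrFun (congrArg Subtype.val h) 0
    simp [hv3, hv4] at this
    omega
  set T : Finset (gammaSet 1 1 0) := {v1, v2, v3, v4} with hT
  -- integrals of the exceptional terms
  have I1 := int_one K m D l hm u v1 rfl
  have I3 := int_two K m D l hD hm (by omega) u a b hab v3 rfl
  have E2 : hv K m D l u v2 = hv K m D l u v1 := by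
    funext y
    unfold hv
    rw [pterm_neg K hKe m v1 v2 rfl]
  have E4 : hv K m D l u v4 = hv K m D l u v3 := by
    funext y
    unfold hv
    rw [pterm_neg K hKe m v3 v4 rfl]
  have I2 := I1
  rw [← E2] at I2
  have I4 := I3
  rw [← E4] at I4
  have hnotT : ∀ v : gammaSet 1 1 0, v ∉ T → v.1 0 ≠ 0 ∧ v.1 0 * u + v.1 1 * D ≠ 0 := by
    intro v hv
    by_contra h
    apply hv
    rcases classify D hD u hu v h with h1 | h1 | h1 | h1
    · have : v = v1 := Subtype.ext h1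
      simp [hT, this]
    · have : v = v2 := Subtype.ext h1
      simp [hT, this]
    · have : v = v3 := Subtype.ext h1
      simp [hT, this]
    · have : v = v4 := Subtype.ext h1
      simp [hT, this]
  have hint : ∀ v : gammaSet 1 1 0, IntegrableOn (hv K m D l u v) (Set.Ioi 0) := by
    intro v
    by_cases hvT : v ∈ T
    · simp only [hT, Finset.mem_insert, Finset.mem_singleton] at hvT
      rcases hvT with h | h | h | h
      · rw [h]; exact I1.1
      · rw [h]; exact I2.1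
      · rw [h]; exact I3.1
      · rw [h]; exact I4.1
    · obtain ⟨hc, he⟩ := hnotT v hvT
      exact (int_err K m D l hKe hl1 hl hD u v hc he).1
  -- the error function
  obtain ⟨hS1, hS2⟩ := sum_err D hD u l (K - 1 - l) hl1 (by omega)
  set g : (Fin 2 → ℤ) → ℝ := fun v => if v 0 ≠ 0 ∧ v 0 * u + v 1 * D ≠ 0 then
        (|(v 0 : ℝ)| ^ (l + 1))⁻¹ * (|((v 0 * u + v 1 * D : ℤ) : ℝ)| ^ (K - 1 - l))⁻¹ else 0 with hg
  have hg0 : ∀ v, 0 ≤ g v := by
    intro v
    simp only [hg]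
    split_ifs
    · positivity
    · exact le_rfl
  have hg1 : Summable (fun v : gammaSet 1 1 0 => (D : ℝ) ^ (K - 1 - l) * g v.1) :=
    (hS1.subtype _).mul_left _
  have hg2 : ∑' v : gammaSet 1 1 0, (D : ℝ) ^ (K - 1 - l) * g v.1 ≤
      12 * (D : ℝ) ^ (K - 1 - l) := by
    rw [tsum_mul_left, mul_comm]
    refine mul_le_mul_of_nonneg_right ?_ (by positivity)
    exact (Summable.tsum_subtype_le g _ hg0 hS1).trans hS2
  have hle : ∀ v : gammaSet 1 1 0, v ∉ T →
      ∫ y in Set.Ioi (0 : ℝ), ‖hv K m D l u v y‖ ≤ (D : ℝ) ^ (K - 1 - l) * g v.1 := by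
    intro v hvT
    obtain ⟨hc, he⟩ := hnotT v hvT
    have := (int_err K m D l hKe hl1 hl hD u v hc he).2
    simp only [hg]
    rw [if_pos ⟨hc, he⟩]
    exact this
  have hsumm : Summable (fun v : gammaSet 1 1 0 => ∫ y in Set.Ioi (0 : ℝ), ‖hv K m D l u v y‖) := by
    refine Summable.of_norm_bounded_eventually hg1 ?_
    filter_upwards [T.finite_toSet.compl_mem_cofinite] with v hv
    rw [Real.norm_of_nonneg (integral_nonneg fun y => norm_nonneg _)]
    exact hle v (by simpa using hv)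
  have hpt : ∀ y ∈ Set.Ioi (0 : ℝ), HasSum (fun v : gammaSet 1 1 0 => hv K m D l u v y)
      (P (pt D u y) * (y : ℂ) ^ l) := by
    intro y _
    exact (hP (pt D u y)).mul_right _
  have haesm : AEStronglyMeasurable (fun y : ℝ => P (pt D u y) * (y : ℂ) ^ l)
      (volume.restrict (Set.Ioi (0 : ℝ))) := by
    refine ContinuousOn.aestronglyMeasurable ?_ measurableSet_Ioi
    refine ContinuousOn.mul ?_ (by fun_prop)
    have h1 : Continuous (P : ℍ → ℂ) := (CuspFormClass.holo P).continuous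
    exact h1.comp_continuousOn (continuousOn_pt D u)
  have hint2 : IntegrableOn (fun y : ℝ => P (pt D u y) * (y : ℂ) ^ l) (Set.Ioi 0) :=
    integrable_of_hasSum hint hsumm haesm (by
      rw [ae_restrict_iff' measurableSet_Ioi]
      exact Filter.Eventually.of_forall hpt)
  refine ⟨hint2, ?_⟩
  have hHS : HasSum (fun v : gammaSet 1 1 0 => ∫ y in Set.Ioi (0 : ℝ), hv K m D l u v y)
      (∫ y in Set.Ioi (0 : ℝ), P (pt D u y) * (y : ℂ) ^ l) := by
    have h1 := hasSum_integral_of_summable_integral_norm hint hsumm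
    have h2 : ∫ y in Set.Ioi (0 : ℝ), ∑' v : gammaSet 1 1 0, hv K m D l u v y =
        ∫ y in Set.Ioi (0 : ℝ), P (pt D u y) * (y : ℂ) ^ l :=
      setIntegral_congr_fun measurableSet_Ioi fun y hy => (hpt y hy).tsum_eq
    rw [← h2]
    exact h1
  have hfin : HasSum (fun v : gammaSet 1 1 0 =>
      if v ∈ T then ∫ y in Set.Ioi (0 : ℝ), hv K m D l u v y else 0)
      (∑ v ∈ T, ∫ y in Set.Ioi (0 : ℝ), hv K m D l u v y) := by
    have h1 : HasSum (fun v : gammaSet 1 1 0 =>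
      if v ∈ T then ∫ y in Set.Ioi (0 : ℝ), hv K m D l u v y else 0)
      (∑ v ∈ T, (if v ∈ T then ∫ y in Set.Ioi (0 : ℝ), hv K m D l u v y else 0)) :=
      hasSum_sum_of_ne_finset_zero (fun v hv => by simp [hv])
    have h2 : ∑ v ∈ T, (if v ∈ T then ∫ y in Set.Ioi (0 : ℝ), hv K m D l u v y else 0) =
        ∑ v ∈ T, ∫ y in Set.Ioi (0 : ℝ), hv K m D l u v y :=
      Finset.sum_congr rfl fun v hv => by simp [hv]
    rw [← h2]
    exact h1
  have hdiff := hHS.sub hfin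
  have hTsum : ∑ v ∈ T, ∫ y in Set.Ioi (0 : ℝ), hv K m D l u v y =
      2 * ((l ! : ℂ) / (2 * π * m) ^ (l + 1) * Complex.exp (2 * π * Complex.I * m * (u / D)) +
        (Complex.I ^ K)⁻¹ * (D : ℂ) ^ (2 * (K - 1 - l)) / (D : ℂ) ^ K * ((K - 2 - l)! : ℂ) /
          (2 * π * m) ^ (K - 1 - l) * Complex.exp (2 * π * Complex.I * m * (a / D))) := by
    rw [hT, Finset.sum_insert (by simp [h12, h13, h14]), Finset.sum_insert (by simp [h23, h24]),
      Finset.sum_insert (by simp [h34]), Finset.sum_singleton, I1.2, I2.2, I3.2, I4.2]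
    ring
  rw [← hTsum, ← hdiff.tsum_eq]
  refine (tsum_of_norm_bounded hg1.hasSum fun v => ?_).trans hg2
  by_cases hvT : v ∈ T
  · simp only [hvT, if_true, sub_self, norm_zero]
    exact mul_nonneg (by positivity) (hg0 _)
  · simp only [hvT, if_false, sub_zero]
    exact (norm_integral_le_integral_norm _).trans (hle v hvT)

end Pool.Agent.Helper54.TP
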