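import Pool.Agent.Helper54.TP.Defs

/-! MP_78efad_nt, file (D): the Gauss sum of a primitive character (norm, shifts, the dual sum) and
the twist of a cusp form as a combination of its values along the vertical lines at `u/D`. -/

open UpperHalfPlane ModularForm EisensteinSeries MeasureTheory
open scoped MatrixGroups Real Nat

namespace Pool.Agent.Helper54.TP

/-- a sum over `0 ≤ u < D` as a sum over `ZMod D` -/
theorem sum_range_zmod {D : ℕ} [NeZero D] (F : ZMod D → ℂ) :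
    ∑ u ∈ Finset.range D, F (u : ZMod D) = ∑ x : ZMod D, F x := by
  refine Finset.sum_bij' (fun u _ => (u : ZMod D)) (fun x _ => x.val) ?_ ?_ ?_ ?_ ?_
  · intro u _
    exact Finset.mem_univ _
  · intro x _
    exact Finset.mem_range.2 (ZMod.val_lt x)
  · intro u hu
    exact ZMod.val_cast_of_lt (Finset.mem_range.1 hu)
  · intro x _
    exact ZMod.natCast_zmod_val x
  · intro u _
    rfl

/-- a sum over `ZMod D` of a function supported on the units -/
theorem sum_units {D : ℕ} [NeZero D] (χ : DirichletCharacter ℂ D) (F : ZMod D → ℂ) :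
    ∑ x : ZMod D, χ x * F x = ∑ u : (ZMod D)ˣ, χ u * F u := by
  symm
  refine Fintype.sum_of_injective (fun u : (ZMod D)ˣ => (u : ZMod D)) Units.val_injective _ _ ?_ ?_
  · intro x hx
    have hx' : ¬ IsUnit x := by
      rintro ⟨u, rfl⟩
      exact hx ⟨u, rfl⟩
    rw [MulChar.map_nonunit _ hx', zero_mul]
  · intro u
    rfl

theorem exp_int {D : ℕ} [NeZero D] (j : ℤ) :
    Complex.exp (2 * π * Complex.I * (j / D)) = ZMod.stdAddChar (j : ZMod D) := by
  rw [ZMod.stdAddChar_coe, mul_div_assoc]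

theorem exp_nat {D : ℕ} [NeZero D] (j : ℕ) :
    Complex.exp (2 * π * Complex.I * (j / D)) = ZMod.stdAddChar (j : ZMod D) := by
  simpa using exp_int (D := D) (j : ℤ)

theorem gs_eq {D : ℕ} [NeZero D] (χ : DirichletCharacter ℂ D) :
    gs χ = gaussSum χ⁻¹ ZMod.stdAddChar := by
  rw [gs, gaussSum, ← sum_range_zmod]
  refine Finset.sum_congr rfl fun u _ => ?_
  rw [exp_nat]

theorem isPrimitive_inv {D : ℕ} (χ : DirichletCharacter ℂ D) (hχ : χ.IsPrimitive) :
    (χ⁻¹).IsPrimitive := by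
  rw [DirichletCharacter.isPrimitive_def] at hχ ⊢
  rw [DirichletCharacter.conductor_inv, hχ]

theorem gauss_mul_gauss {D : ℕ} [NeZero D] (χ : DirichletCharacter ℂ D) (hχ : χ.IsPrimitive) :
    gaussSum χ ZMod.stdAddChar * gaussSum χ⁻¹ ZMod.stdAddChar = D * χ (-1) := by
  have h := congrFun (ZMod.dft_dft (χ : ZMod D → ℂ)) 1
  have h1 : ZMod.dft (χ : ZMod D → ℂ) =
      fun k => χ⁻¹ (-k) * gaussSum χ ZMod.stdAddChar :=
    funext fun k => hχ.fourierTransform_eq_inv_mul_gaussSum k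
  have h2 : ZMod.dft ((χ⁻¹ : DirichletCharacter ℂ D) : ZMod D → ℂ) =
      fun k => χ (-k) * gaussSum χ⁻¹ ZMod.stdAddChar := by
    funext k
    rw [(isPrimitive_inv χ hχ).fourierTransform_eq_inv_mul_gaussSum k, inv_inv]
  rw [h1, ZMod.dft_mul_const, ZMod.dft_comp_neg (fun k => χ⁻¹ k), h2] at h
  simp only [neg_neg, map_one, one_mul, smul_eq_mul] at h
  rw [← h]
  ring

theorem norm_gauss_inv {D : ℕ} [NeZero D] (χ : DirichletCharacter ℂ D) :
    ‖gaussSum χ ZMod.stdAddChar‖ = ‖gaussSum χ⁻¹ ZMod.stdAddChar‖ := by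
  rw [← norm_star (gaussSum χ ZMod.stdAddChar), star_gaussSum_eq]
  have h := gaussSum_mulShift χ⁻¹ (ZMod.stdAddChar : AddChar (ZMod D) ℂ) (-1)
  have h2 : AddChar.mulShift (ZMod.stdAddChar : AddChar (ZMod D) ℂ) ((-1 : (ZMod D)ˣ) : ZMod D) =
      (ZMod.stdAddChar)⁻¹ := by
    ext x
    rw [AddChar.mulShift_apply, AddChar.inv_apply]
    simp
  rw [h2] at h
  rw [← h, norm_mul]
  have h3 : ‖(χ⁻¹ : DirichletCharacter ℂ D) ((-1 : (ZMod D)ˣ) : ZMod D)‖ = 1 :=
    DirichletCharacter.unit_norm_eq_one _ _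
  rw [h3, one_mul]

theorem gs_norm {D : ℕ} (hD : 1 ≤ D) (χ : DirichletCharacter ℂ D) (hχ : χ.IsPrimitive) :
    ‖gs χ‖ = Real.sqrt D := by
  have : NeZero D := ⟨by omega⟩
  rw [gs_eq]
  have h := congrArg norm (gauss_mul_gauss χ hχ)
  rw [norm_mul, norm_gauss_inv, norm_mul] at h
  have h3 : ‖χ (-1)‖ = 1 := by
    simpa using DirichletCharacter.unit_norm_eq_one χ (-1)
  rw [h3, mul_one, Complex.norm_natCast] at h
  rw [← h, Real.sqrt_mul_self (norm_nonneg _)]

theorem gs_shift {D : ℕ} (hD : 1 ≤ D) (χ : DirichletCharacter ℂ D) (hχ : χ.IsPrimitive) (m : ℕ) :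
    ∑ u ∈ Finset.range D, χ⁻¹ (u : ZMod D) * Complex.exp (2 * π * Complex.I * m * (u / D)) =
      χ m * gs χ := by
  have : NeZero D := ⟨by omega⟩
  have h := gaussSum_mulShift_of_isPrimitive (ZMod.stdAddChar : AddChar (ZMod D) ℂ)
    (isPrimitive_inv χ hχ) (m : ZMod D)
  rw [inv_inv] at h
  rw [gs_eq, ← h, gaussSum, ← sum_range_zmod]
  refine Finset.sum_congr rfl fun u _ => ?_
  rw [AddChar.mulShift_apply, ← Nat.cast_mul, ← exp_nat]
  congr 2
  push_cast
  ring

/-- the dual sum: `a u ≡ -1 (mod D)`, with a frequency `m` prime to `D` -/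
theorem gs_dual_gen {D : ℕ} (hD : 1 ≤ D) (χ : DirichletCharacter ℂ D) (m : ℕ)
    (hm : m.Coprime D) (a b : ℕ → ℤ)
    (hab : ∀ u ∈ Finset.range D, IsUnit (u : ZMod D) → a u * (-(u : ℤ)) - b u * D = 1) :
    ∑ u ∈ Finset.range D, χ⁻¹ (u : ZMod D) * Complex.exp (2 * π * Complex.I * m * (a u / D)) =
      χ⁻¹ m * (starRingEnd ℂ) (gs χ) := by
  have : NeZero D := ⟨by omega⟩
  have h1 : ∑ u ∈ Finset.range D, χ⁻¹ (u : ZMod D) *
      Complex.exp (2 * π * Complex.I * m * (a u / D)) =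
      ∑ x : ZMod D, χ⁻¹ x * ZMod.stdAddChar (-((m : ZMod D) * Ring.inverse x)) := by
    rw [← sum_range_zmod]
    refine Finset.sum_congr rfl fun u hu => ?_
    by_cases hu' : IsUnit (u : ZMod D)
    · have h2 := congrArg (fun t : ℤ => (t : ZMod D)) (hab u hu hu')
      push_cast at h2
      rw [ZMod.natCast_self, mul_zero, sub_zero] at h2
      have he : 2 * π * Complex.I * m * ((a u : ℂ) / D) =
          2 * π * Complex.I * (((m * a u : ℤ) : ℂ) / D) := by
        push_cast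
        ring
      rw [he, exp_int]
      congr 2
      obtain ⟨v, hv⟩ := hu'
      rw [← hv] at h2 ⊢
      rw [Ring.inverse_unit]
      have h3 : ((a u : ℤ) : ZMod D) * v = -1 := by
        linear_combination -h2
      have h4 : ((a u : ℤ) : ZMod D) = -((v⁻¹ : (ZMod D)ˣ) : ZMod D) := by
        calc ((a u : ℤ) : ZMod D)
            = ((a u : ℤ) : ZMod D) * v * ((v⁻¹ : (ZMod D)ˣ) : ZMod D) := by
              rw [mul_assoc, Units.mul_inv, mul_one]
          _ = -((v⁻¹ : (ZMod D)ˣ) : ZMod D) := by rw [h3]; ring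
      push_cast
      rw [h4]
      ring
    · rw [MulChar.map_nonunit _ hu', zero_mul, zero_mul]
  have h4 : (starRingEnd ℂ) (gs χ) = gaussSum χ (ZMod.stdAddChar)⁻¹ := by
    rw [gs_eq, starRingEnd_apply, star_gaussSum_eq, inv_inv]
  have h5 := gaussSum_mulShift_eq χ (ZMod.stdAddChar : AddChar (ZMod D) ℂ)⁻¹
    (ZMod.unitOfCoprime m hm)
  rw [ZMod.coe_unitOfCoprime] at h5
  rw [h1, h4, ← h5, gaussSum, sum_units, sum_units]
  refine Fintype.sum_equiv (Equiv.inv _) _ _ fun v => ?_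
  rw [Ring.inverse_unit]
  simp only [Equiv.inv_apply]
  rw [MulChar.inv_apply_eq_inv, AddChar.mulShift_apply, AddChar.inv_apply]
  congr 1
  rw [← MulChar.inv_apply_eq_inv, MulChar.inv_apply, Ring.inverse_unit]

/-- the dual sum: `a u ≡ -1 (mod D)` -/
theorem gs_dual {D : ℕ} (hD : 1 ≤ D) (χ : DirichletCharacter ℂ D) (a b : ℕ → ℤ)
    (hab : ∀ u ∈ Finset.range D, IsUnit (u : ZMod D) → a u * (-(u : ℤ)) - b u * D = 1) :
    ∑ u ∈ Finset.range D, χ⁻¹ (u : ZMod D) * Complex.exp (2 * π * Complex.I * (a u / D)) =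
      (starRingEnd ℂ) (gs χ) := by
  have h := gs_dual_gen hD χ 1 (Nat.coprime_one_left D) a b hab
  simpa using h

theorem pt_coe (D : ℕ) (u : ℤ) (y : ℝ) (hy : 0 < y) :
    ((pt D u y : ℍ) : ℂ) = (u : ℂ) / D + Complex.I * y := by
  have h : 0 < ((u : ℂ) / D + Complex.I * y).im := by
    have : ((u : ℂ) / D).im = 0 := by
      have : ((u : ℂ) / D) = (((u : ℝ) / D : ℝ) : ℂ) := by push_cast; rfl
      rw [this, Complex.ofReal_im]
    simp [this, hy]
  rw [pt, ofComplex_apply_of_im_pos h]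

theorem twist_eq {K : ℕ} {D : ℕ} (hD : 1 ≤ D) (χ : DirichletCharacter ℂ D) (hχ : χ.IsPrimitive)
    (f : CuspForm 𝒮ℒ K) (y : ℝ) (hy : 0 < y) :
    twist χ f (Complex.I * y) =
      (gs χ)⁻¹ * ∑ u ∈ Finset.range D, χ⁻¹ (u : ZMod D) * f (pt D u y) := by
  have hg : gs χ ≠ 0 := by
    intro h0
    have h := gs_norm hD χ hχ
    rw [h0, norm_zero] at h
    have : (0 : ℝ) < Real.sqrt D := Real.sqrt_pos.2 (by exact_mod_cast hD)
    linarith
  have hsum : ∀ u : ℕ, HasSum (fun m : ℕ => (qExpansion 1 (f : ℍ → ℂ)).coeff m *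
      (Complex.exp (2 * π * Complex.I * m * (u / D)) *
        Complex.exp (2 * π * Complex.I * m * (Complex.I * y)))) (f (pt D u y)) := by
    intro u
    have h := ModularForm.hasSum_qExpansion f one_pos one_mem_strictPeriods_SL (pt D u y)
    refine h.congr_fun ?_
    intro m
    rw [Function.Periodic.qParam, ← Complex.exp_nat_mul, pt_coe D u y hy, ← Complex.exp_add]
    congr 2
    push_cast
    ring
  have h2 : HasSum (fun m : ℕ => ∑ u ∈ Finset.range D, χ⁻¹ (u : ZMod D) *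
      ((qExpansion 1 (f : ℍ → ℂ)).coeff m *
      (Complex.exp (2 * π * Complex.I * m * (u / D)) *
        Complex.exp (2 * π * Complex.I * m * (Complex.I * y)))))
      (∑ u ∈ Finset.range D, χ⁻¹ (u : ZMod D) * f (pt D u y)) :=
    hasSum_sum fun u _ => (hsum u).mul_left _
  have h3 : HasSum (fun m : ℕ => χ (m : ZMod D) * (qExpansion 1 (f : ℍ → ℂ)).coeff m *
      Complex.exp (2 * π * Complex.I * m * (Complex.I * y)))
      ((gs χ)⁻¹ * ∑ u ∈ Finset.range D, χ⁻¹ (u : ZMod D) * f (pt D u y)) := by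
    have h4 := h2.mul_left ((gs χ)⁻¹)
    refine h4.congr_fun ?_
    intro m
    have h5 : ∑ u ∈ Finset.range D, χ⁻¹ (u : ZMod D) *
        ((qExpansion 1 (f : ℍ → ℂ)).coeff m *
        (Complex.exp (2 * π * Complex.I * m * (u / D)) *
          Complex.exp (2 * π * Complex.I * m * (Complex.I * y)))) =
        (∑ u ∈ Finset.range D, χ⁻¹ (u : ZMod D) *
          Complex.exp (2 * π * Complex.I * m * (u / D))) *
        ((qExpansion 1 (f : ℍ → ℂ)).coeff m *
          Complex.exp (2 * π * Complex.I * m * (Complex.I * y))) := by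
      rw [Finset.sum_mul]
      exact Finset.sum_congr rfl fun u _ => by ring
    rw [h5, gs_shift hD χ hχ m]
    field_simp
  rw [twist]
  exact h3.tsum_eq

end Pool.Agent.Helper54.TP
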