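import Pool.Agent.Helper54.TP.Poin
import Pool.Agent.Helper54.TP.Twist
import Pool.Agent.Helper54.TP.Period

/-! MP_78efad_nt: the twisted periods of a Poincaré series. -/

set_option linter.all false

open UpperHalfPlane ModularForm EisensteinSeries MeasureTheory
open scoped MatrixGroups Real Nat

namespace Pool.Agent.Helper54.TP

/-- the first main term -/
noncomputable def mainA (l m : ℕ) : ℂ := (l ! : ℂ) / (2 * π * m) ^ (l + 1)

/-- the second main term -/
noncomputable def mainB (K l D m : ℕ) : ℂ :=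
  (Complex.I ^ K)⁻¹ * (D : ℂ) ^ (2 * (K - 1 - l)) / (D : ℂ) ^ K * ((K - 2 - l)! : ℂ) /
    (2 * π * m) ^ (K - 1 - l)

theorem period_node {D : ℕ} (hD : 1 ≤ D) (χ : DirichletCharacter ℂ D) (hχ : χ.IsPrimitive)
    (K l m : ℕ) (hKe : Even K) (hl1 : 1 ≤ l) (hl : l + 3 ≤ K) (hm : 1 ≤ m) (hmD : m.Coprime D)
    (P : CuspForm 𝒮ℒ K)
    (hP : ∀ z : ℍ, HasSum (fun v : gammaSet 1 1 0 => pterm K m v z) (P z)) :
    ‖twistedPeriod l χ P - Complex.I ^ (l + 1) * (2 * (mainA l m * χ m +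
      (gs χ)⁻¹ * (starRingEnd ℂ) (gs χ) * mainB K l D m * χ⁻¹ m))‖ ≤
      12 * D * (D : ℝ) ^ (K - 1 - l) := by
  haveI : NeZero D := ⟨by omega⟩
  have hgs : ‖gs χ‖ = Real.sqrt D := gs_norm hD χ hχ
  have hD1 : (1 : ℝ) ≤ D := by exact_mod_cast hD
  have hgs1 : 1 ≤ ‖gs χ‖ := by
    rw [hgs]
    exact Real.one_le_sqrt.mpr hD1
  have hgs0 : gs χ ≠ 0 := by
    intro h
    rw [h, norm_zero] at hgs1
    linarith
  -- the matrices
  have hex : ∀ u : ℕ, ∃ ab : ℤ × ℤ, IsUnit (u : ZMod D) →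
      ab.1 * (-(u : ℤ)) - ab.2 * D = 1 := by
    intro u
    by_cases hu : IsUnit (u : ZMod D)
    · have h1 : u.Coprime D := (ZMod.isUnit_iff_coprime u D).mp hu
      obtain ⟨x, y, hxy⟩ := Nat.isCoprime_iff_coprime.mpr h1
      refine ⟨(-x, -y), fun _ => ?_⟩
      simp only
      linarith
    · exact ⟨(0, 0), fun h => absurd h hu⟩
  choose ab hab using hex
  set J : ℕ → ℂ := fun u => ∫ y in Set.Ioi (0 : ℝ), P (pt D (u : ℤ) y) * (y : ℂ) ^ l with hJ
  have hpp : ∀ u : ℕ, IsUnit (u : ZMod D) →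
      IntegrableOn (fun y : ℝ => P (pt D (u : ℤ) y) * (y : ℂ) ^ l) (Set.Ioi 0) ∧
      ‖J u - 2 * (mainA l m * Complex.exp (2 * π * Complex.I * m * (u / D)) +
        mainB K l D m * Complex.exp (2 * π * Complex.I * m * ((ab u).1 / D)))‖ ≤
        12 * (D : ℝ) ^ (K - 1 - l) := by
    intro u hu
    have h := period_poincare K l D m hKe hl1 hl hD hm (u : ℤ) (ab u).1 (ab u).2 (hab u hu) P hP
    refine ⟨h.1, ?_⟩
    have h2 := h.2
    rw [Int.cast_natCast] at h2
    exact h2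
  have hint : ∀ u ∈ Finset.range D, IntegrableOn
      (fun y : ℝ => χ⁻¹ (u : ZMod D) * (P (pt D (u : ℤ) y) * (y : ℂ) ^ l)) (Set.Ioi 0) := by
    intro u _
    by_cases hu : IsUnit (u : ZMod D)
    · exact (hpp u hu).1.const_mul _
    · rw [MulChar.map_nonunit _ hu]
      simp
  have hper : twistedPeriod l χ P =
      (gs χ)⁻¹ * Complex.I ^ (l + 1) * ∑ u ∈ Finset.range D, χ⁻¹ (u : ZMod D) * J u := by
    unfold twistedPeriod
    have h1 : ∫ y in Set.Ioi (0 : ℝ), twist χ P (Complex.I * y) * (Complex.I * y) ^ l * Complex.I =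
        ∫ y in Set.Ioi (0 : ℝ), (gs χ)⁻¹ * Complex.I ^ (l + 1) *
          ∑ u ∈ Finset.range D, χ⁻¹ (u : ZMod D) * (P (pt D (u : ℤ) y) * (y : ℂ) ^ l) := by
      refine setIntegral_congr_fun measurableSet_Ioi (fun y hy => ?_)
      rw [twist_eq hD χ hχ P y hy, mul_pow, pow_succ]
      simp only [Finset.mul_sum, Finset.sum_mul]
      refine Finset.sum_congr rfl (fun u _ => ?_)
      ring
    rw [h1, integral_const_mul, integral_finset_sum _ hint]
    congr 1
    refine Finset.sum_congr rfl (fun u _ => ?_)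
    rw [integral_const_mul]
  -- the main terms
  have hmain : ∑ u ∈ Finset.range D, χ⁻¹ (u : ZMod D) *
      (2 * (mainA l m * Complex.exp (2 * π * Complex.I * m * (u / D)) +
        mainB K l D m * Complex.exp (2 * π * Complex.I * m * ((ab u).1 / D)))) =
      2 * (mainA l m * (χ m * gs χ) + mainB K l D m * (χ⁻¹ m * (starRingEnd ℂ) (gs χ))) := by
    rw [← gs_shift hD χ hχ m, ← gs_dual_gen hD χ m hmD (fun u => (ab u).1) (fun u => (ab u).2)
      (fun u _ hu => hab u hu)]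
    simp only [Finset.mul_sum, ← Finset.sum_add_distrib]
    refine Finset.sum_congr rfl (fun u _ => ?_)
    ring
  have hdiff : ‖∑ u ∈ Finset.range D, χ⁻¹ (u : ZMod D) * J u -
      2 * (mainA l m * (χ m * gs χ) + mainB K l D m * (χ⁻¹ m * (starRingEnd ℂ) (gs χ)))‖ ≤
      12 * D * (D : ℝ) ^ (K - 1 - l) := by
    rw [← hmain, ← Finset.sum_sub_distrib]
    refine le_trans (norm_sum_le _ _) ?_
    have h1 : ∀ u ∈ Finset.range D, ‖χ⁻¹ (u : ZMod D) * J u - χ⁻¹ (u : ZMod D) *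
      (2 * (mainA l m * Complex.exp (2 * π * Complex.I * m * (u / D)) +
        mainB K l D m * Complex.exp (2 * π * Complex.I * m * ((ab u).1 / D))))‖ ≤
        12 * (D : ℝ) ^ (K - 1 - l) := by
      intro u _
      by_cases hu : IsUnit (u : ZMod D)
      · rw [← mul_sub, norm_mul]
        have h2 := (hpp u hu).2
        have h3 : ‖χ⁻¹ (u : ZMod D)‖ ≤ 1 := DirichletCharacter.norm_le_one _ _
        calc _ ≤ 1 * ‖J u - (2 * (mainA l m * Complex.exp (2 * π * Complex.I * m * (u / D)) +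
              mainB K l D m * Complex.exp (2 * π * Complex.I * m * ((ab u).1 / D))))‖ :=
              mul_le_mul_of_nonneg_right h3 (norm_nonneg _)
          _ ≤ _ := by rw [one_mul]; exact h2
      · rw [MulChar.map_nonunit _ hu, zero_mul, zero_mul, sub_zero, norm_zero]
        positivity
    refine le_trans (Finset.sum_le_sum h1) ?_
    rw [Finset.sum_const, Finset.card_range, nsmul_eq_mul]
    apply le_of_eq
    ring
  have hfin : twistedPeriod l χ P - Complex.I ^ (l + 1) * (2 * (mainA l m * χ m +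
      (gs χ)⁻¹ * (starRingEnd ℂ) (gs χ) * mainB K l D m * χ⁻¹ m)) =
      (gs χ)⁻¹ * Complex.I ^ (l + 1) * (∑ u ∈ Finset.range D, χ⁻¹ (u : ZMod D) * J u -
      2 * (mainA l m * (χ m * gs χ) + mainB K l D m * (χ⁻¹ m * (starRingEnd ℂ) (gs χ)))) := by
    rw [hper]
    field_simp
  rw [hfin, norm_mul, norm_mul, norm_pow, Complex.norm_I, one_pow, mul_one, norm_inv]
  calc ‖gs χ‖⁻¹ * _ ≤ 1 * (12 * D * (D : ℝ) ^ (K - 1 - l)) := by
        apply mul_le_mul (inv_le_one_of_one_le₀ hgs1) hdiff (norm_nonneg _) zero_le_one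
    _ = _ := by rw [one_mul]

end Pool.Agent.Helper54.TP
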