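import Mathlib

/-! MP_78efad_nt, file (E): the numerical inequality. -/

open scoped Real Nat

namespace Pool.Agent.Helper54.TP

/-- with `p ≥ K/2 + 1` -/
theorem numerics (K n D p : ℕ) (hD : 1 ≤ D) (hn : 1 ≤ n) (hK : 100 * n * D ^ 2 ≤ K)
    (hp : K + 2 ≤ 2 * p) :
    (n : ℝ) * (6 * D) * ((2 * n) ^ 2 * (1 + D * (2 * n)) * 8 ^ (2 * n)) *
      ((2 * π * (2 * n)) ^ p * D ^ K) < (p - 1)! := by
  obtain ⟨q, rfl⟩ : ∃ q, p = q + 1 := ⟨p - 1, by omega⟩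
  have hKq : K ≤ 2 * q := by omega
  have hq : 50 * (n * D ^ 2) ≤ q := by
    have : 100 * (n * D ^ 2) ≤ 2 * q := by
      calc 100 * (n * D ^ 2) = 100 * n * D ^ 2 := by ring
        _ ≤ K := hK
        _ ≤ 2 * q := hKq
    omega
  have hD1 : (1 : ℝ) ≤ D := by exact_mod_cast hD
  have hn1 : (1 : ℝ) ≤ n := by exact_mod_cast hn
  set s : ℕ := n * D ^ 2 with hs
  have hs1 : 1 ≤ s := Nat.mul_pos hn (pow_pos hD 2)
  have hs1' : (1 : ℝ) ≤ s := by exact_mod_cast hs1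
  have hqR : (50 : ℝ) * s ≤ q := by exact_mod_cast hq
  have hsR : (s : ℝ) = n * (D : ℝ) ^ 2 := by rw [hs]; push_cast; ring
  simp only [Nat.add_sub_cancel]
  -- the main comparison
  have hpi : π < 3.1416 := Real.pi_lt_d4
  have hpi0 : 0 < π := Real.pi_pos
  have he : Real.exp 1 < 2.7182818286 := Real.exp_one_lt_d9
  have he0 : 0 < Real.exp 1 := Real.exp_pos 1
  -- q / e ≥ 1.46 * 4 π s
  have hbase : 1.46 * (4 * π * s) ≤ (q : ℝ) / Real.exp 1 := by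
    rw [le_div_iff₀ he0]
    have h1 : 4 * π * s * Real.exp 1 ≤ 4 * 3.1416 * s * 2.7182818286 := by
      gcongr
    nlinarith
  have hfac : ((q : ℝ) / Real.exp 1) ^ q ≤ q ! := by
    have h := Stirling.le_factorial_stirling q
    have hq1 : (1 : ℝ) ≤ q := by linarith
    have hsq : 1 ≤ √(2 * π * q) := by
      rw [Real.one_le_sqrt]
      have : 3 < π := Real.pi_gt_three
      nlinarith
    have h0 : 0 ≤ ((q : ℝ) / Real.exp 1) ^ q := by positivity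
    nlinarith
  have hDK : (D : ℝ) ^ K ≤ (D : ℝ) ^ (2 * q) := pow_le_pow_right₀ hD1 hKq
  have hL : (n : ℝ) * (6 * D) * ((2 * n) ^ 2 * (1 + D * (2 * n)) * 8 ^ (2 * n)) *
      ((2 * π * (2 * n)) ^ (q + 1) * D ^ K) ≤
      (n * (6 * D) * ((2 * n) ^ 2 * (1 + D * (2 * n)) * 8 ^ (2 * n)) * (4 * π * n)) *
        (4 * π * s) ^ q := by
    have h1 : (2 * π * (2 * (n : ℝ))) ^ (q + 1) * (D : ℝ) ^ K ≤
        (4 * π * n) * (4 * π * s) ^ q := by
      calc (2 * π * (2 * (n : ℝ))) ^ (q + 1) * (D : ℝ) ^ K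
          ≤ (2 * π * (2 * (n : ℝ))) ^ (q + 1) * (D : ℝ) ^ (2 * q) := by gcongr
        _ = (4 * π * n) * (4 * π * s) ^ q := by
            rw [hsR, pow_succ, pow_mul, ← mul_assoc (4 * π) (n : ℝ), mul_pow (4 * π * n),
              show 2 * π * (2 * (n : ℝ)) = 4 * π * n by ring]
            ring
    calc (n : ℝ) * (6 * D) * ((2 * n) ^ 2 * (1 + D * (2 * n)) * 8 ^ (2 * n)) *
      ((2 * π * (2 * n)) ^ (q + 1) * D ^ K)
        ≤ (n : ℝ) * (6 * D) * ((2 * n) ^ 2 * (1 + D * (2 * n)) * 8 ^ (2 * n)) *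
          ((4 * π * n) * (4 * π * s) ^ q) := by gcongr
      _ = _ := by ring
  -- bound of the polynomial factor
  have hP : (n : ℝ) * (6 * D) * ((2 * n) ^ 2 * (1 + D * (2 * n)) * 8 ^ (2 * n)) * (4 * π * n) <
      1.46 ^ (50 * s) := by
    have hDs : (D : ℝ) ≤ s := by
      rw [hsR]
      nlinarith
    have hns : (n : ℝ) ≤ s := by
      rw [hsR]
      nlinarith [sq_nonneg ((D : ℝ) - 1), mul_le_mul hD1 hD1 zero_le_one (by linarith)]
    have hns' : n ≤ s := by exact_mod_cast hns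
    have hDn : (D : ℝ) * n ≤ s := by
      rw [hsR]
      nlinarith [mul_nonneg (by linarith : (0 : ℝ) ≤ n) (by linarith : (0 : ℝ) ≤ D)]
    have h8 : (8 : ℝ) ^ (2 * n) ≤ 64 ^ s := by
      rw [pow_mul]
      norm_num
      exact pow_le_pow_right₀ (by norm_num) hns'
    have h2 : (n : ℝ) * (6 * D) * ((2 * n) ^ 2 * (1 + D * (2 * n)) * 8 ^ (2 * n)) * (4 * π * n) ≤
        905 * (s : ℝ) ^ 5 * 64 ^ s := by
      have e1 : (n : ℝ) * (6 * D) * ((2 * n) ^ 2 * (1 + D * (2 * n)) * 8 ^ (2 * n)) * (4 * π * n) =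
        96 * π * (D * n) * n ^ 2 * (1 + 2 * (D * n)) * n * 8 ^ (2 * n) := by ring
      rw [e1]
      have h3 : 1 + 2 * ((D : ℝ) * n) ≤ 3 * s := by linarith
      calc 96 * π * ((D : ℝ) * n) * n ^ 2 * (1 + 2 * (D * n)) * n * 8 ^ (2 * n)
          ≤ 96 * 3.1416 * s * s ^ 2 * (3 * s) * s * 64 ^ s := by gcongr
        _ = (96 * 3.1416 * 3) * (s : ℝ) ^ 5 * 64 ^ s := by ring
        _ ≤ 905 * (s : ℝ) ^ 5 * 64 ^ s := by
            gcongr
            norm_num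
    have h3 : (s : ℝ) ^ 5 ≤ 32 ^ s := by
      have : (s : ℝ) ≤ 2 ^ s := by
        exact_mod_cast (Nat.lt_two_pow_self (n := s)).le
      calc (s : ℝ) ^ 5 ≤ (2 ^ s) ^ 5 := by gcongr
        _ = 32 ^ s := by
            rw [← pow_mul, mul_comm, pow_mul]
            norm_num
    have h4 : (905 : ℝ) ≤ 905 ^ s := by
      calc (905 : ℝ) = 905 ^ 1 := by norm_num
        _ ≤ 905 ^ s := pow_le_pow_right₀ (by norm_num) hs1
    calc _ ≤ 905 * (s : ℝ) ^ 5 * 64 ^ s := h2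
      _ ≤ 905 ^ s * 32 ^ s * 64 ^ s := by gcongr
      _ = (905 * 32 * 64) ^ s := by rw [mul_pow, mul_pow]
      _ < (1.46 ^ 50) ^ s := by
          apply pow_lt_pow_left₀ _ (by norm_num) (by omega)
          norm_num
      _ = 1.46 ^ (50 * s) := by rw [← pow_mul]
  have hs0 : 0 < (4 * π * s) ^ q := by positivity
  calc _ ≤ _ := hL
    _ < 1.46 ^ (50 * s) * (4 * π * s) ^ q := by gcongr
    _ ≤ 1.46 ^ q * (4 * π * s) ^ q := by
        gcongr
        norm_num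
    _ = (1.46 * (4 * π * s)) ^ q := by rw [← mul_pow]
    _ ≤ ((q : ℝ) / Real.exp 1) ^ q := by gcongr
    _ ≤ q ! := hfac

end Pool.Agent.Helper54.TP
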