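import Mathlib
import Pool.Agent.MP78.SparseInv

/-! MP_78efad_nt, D = 1, file (d): sign changes of `∑ b_i (y^{ℓ_i} + s y^{K-2-ℓ_i})` on `(1,∞)`. -/

open Polynomial Finset

namespace Pool.Agent.Helper54.TP

/-- a real polynomial without real roots has constant sign -/
lemma const_sign (q : ℝ[X]) (hq : q.roots = 0) (hq0 : q ≠ 0) (y : ℝ) :
    0 < q.eval 2 * q.eval y := by
  have hne : ∀ x : ℝ, q.eval x ≠ 0 := by
    intro x hx
    have : x ∈ q.roots := (mem_roots hq0).2 hx
    rw [hq] at this
    simp at this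
  by_contra h
  have h1 : q.eval 2 * q.eval y < 0 := lt_of_le_of_ne (not_lt.1 h) (mul_ne_zero (hne _) (hne _))
  have hcont : ContinuousOn (fun x => q.eval x) (Set.uIcc 2 y) := q.continuous.continuousOn
  have h2 : (0 : ℝ) ∈ Set.uIcc (q.eval 2) (q.eval y) := by
    rw [Set.mem_uIcc]
    rcases mul_neg_iff.1 h1 with ⟨h3, h4⟩ | ⟨h3, h4⟩
    · exact Or.inr ⟨h4.le, h3.le⟩
    · exact Or.inl ⟨h3.le, h4.le⟩
  obtain ⟨x, _, hx⟩ := intermediate_value_uIcc hcont h2
  exact hne x hx

theorem signs (K n : ℕ) (ℓ : Fin n → ℕ) (hℓ : StrictMono ℓ) (h4 : ∀ i, 2 * ℓ i + 4 ≤ K)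
    (s : ℝ) (hs : s = 1 ∨ s = -1) (b : Fin n → ℝ) (hb : b ≠ 0) :
    ∃ k : ℕ, k + 1 ≤ n ∧ ∃ ρ : Fin k → ℝ, (∀ i, 1 < ρ i) ∧ ∃ σ : ℝ, ∃ Z : Finset ℝ,
      ∀ y : ℝ, 1 < y → y ∉ Z →
        0 < σ * (∑ i, b i * (y ^ ℓ i + s * y ^ (K - 2 - ℓ i))) * ∏ i, (y - ρ i) := by
  classical
  have hs2 : s * s = 1 := by rcases hs with h | h <;> rw [h] <;> norm_num
  have hs0 : s ≠ 0 := by
    intro h
    rw [h] at hs2
    norm_num at hs2
  obtain ⟨i0, hi0⟩ : ∃ i, b i ≠ 0 := by
    by_contra h
    push Not at h
    exact hb (funext h)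
  have hn1 : 1 ≤ n := by
    have := i0.2
    omega
  set P : ℝ[X] := ∑ i, (C (b i) * X ^ ℓ i + C (b i * s) * X ^ (K - 2 - ℓ i)) with hP
  have heval : ∀ y : ℝ, P.eval y = ∑ i, b i * (y ^ ℓ i + s * y ^ (K - 2 - ℓ i)) := by
    intro y
    rw [hP, eval_finsetSum]
    refine Finset.sum_congr rfl fun i _ => ?_
    simp
    ring
  have hP0 : P ≠ 0 := by
    intro h
    have h1 : P.coeff (ℓ i0) = b i0 := by
      rw [hP, finsetSum_coeff, Finset.sum_eq_single i0]
      · have : ℓ i0 ≠ K - 2 - ℓ i0 := by
          have := h4 i0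
          omega
        rw [coeff_add, coeff_C_mul, coeff_C_mul, coeff_X_pow, coeff_X_pow, if_pos rfl,
          if_neg this]
        ring
      · intro j _ hj
        have h2 : ℓ i0 ≠ ℓ j := fun h => hj (hℓ.injective h).symm
        have h3 : ℓ i0 ≠ K - 2 - ℓ j := by
          have := h4 i0
          have := h4 j
          omega
        rw [coeff_add, coeff_C_mul, coeff_C_mul, coeff_X_pow, coeff_X_pow, if_neg h2,
          if_neg h3]
        ring
      · simp
    rw [h] at h1
    simp at h1
    exact hi0 h1.symm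
  have hsupp : P.support.card ≤ 2 * n := by
    have h1 : P.support ⊆ (Finset.univ.image ℓ) ∪ (Finset.univ.image fun i => K - 2 - ℓ i) := by
      intro m hm
      rw [mem_support_iff] at hm
      by_contra h
      simp only [Finset.mem_union, Finset.mem_image, Finset.mem_univ, true_and, not_or,
        not_exists] at h
      apply hm
      rw [hP, finsetSum_coeff]
      refine Finset.sum_eq_zero fun i _ => ?_
      have h2 : m ≠ ℓ i := fun e => h.1 i e.symm
      have h3 : m ≠ K - 2 - ℓ i := fun e => h.2 i e.symm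
      rw [coeff_add, coeff_C_mul, coeff_C_mul, coeff_X_pow, coeff_X_pow, if_neg h2,
          if_neg h3]
      ring
    refine (Finset.card_le_card h1).trans ((Finset.card_union_le _ _).trans ?_)
    have h2 := Finset.card_image_le (s := (Finset.univ : Finset (Fin n))) (f := ℓ)
    have h3 := Finset.card_image_le (s := (Finset.univ : Finset (Fin n)))
      (f := fun i => K - 2 - ℓ i)
    simp only [Finset.card_univ, Fintype.card_fin] at h2 h3
    omega
  have hsv : P.roots.countP (0 < ·) + 1 ≤ 2 * n := by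
    have h1 := roots_countP_pos_le_signVariations (P := P)
    have h2 := MP78.signVar_succ_le_card _ P hP0 rfl
    omega
  -- symmetry
  have hsym : ∀ y : ℝ, 0 < y → P.eval y = s * (y ^ (K - 2) * P.eval (y⁻¹)) := by
    intro y hy
    rw [heval, heval, Finset.mul_sum, Finset.mul_sum]
    refine Finset.sum_congr rfl fun i _ => ?_
    have h1 : y ^ (K - 2) = y ^ ℓ i * y ^ (K - 2 - ℓ i) := by
      rw [← pow_add]
      congr 1
      have := h4 i
      omega
    have hy0 : y ≠ 0 := hy.ne'
    rw [h1, inv_pow, inv_pow]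
    field_simp
    linear_combination (-(b i) * y ^ ℓ i) * hs2
  set S : Finset ℝ := P.roots.toFinset.filter (fun x => 1 < x) with hS
  have hScard : S.card + 1 ≤ n := by
    have h1 : (S ∪ S.image (·⁻¹)).card ≤ P.roots.countP (0 < ·) := by
      rw [Multiset.countP_eq_card_filter]
      refine le_trans (Finset.card_le_card ?_) (Multiset.toFinset_card_le _)
      intro x hx
      rw [Multiset.mem_toFinset, Multiset.mem_filter]
      rw [Finset.mem_union, Finset.mem_image] at hx
      rcases hx with hx | ⟨z, hz, rfl⟩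
      · simp only [hS, Finset.mem_filter, Multiset.mem_toFinset] at hx
        exact ⟨hx.1, by linarith [hx.2]⟩
      · simp only [hS, Finset.mem_filter, Multiset.mem_toFinset] at hz
        have hz0 : 0 < z := by linarith [hz.2]
        have h2 : P.eval z = 0 := (mem_roots hP0).1 hz.1
        have h3 := hsym z hz0
        rw [h2] at h3
        have h4 : P.eval z⁻¹ = 0 := by
          have h5 : s * (z ^ (K - 2) * P.eval z⁻¹) = 0 := h3.symm
          rcases mul_eq_zero.1 h5 with h6 | h6
          · exact absurd h6 hs0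
          · rcases mul_eq_zero.1 h6 with h7 | h7
            · exact absurd h7 (by positivity)
            · exact h7
        exact ⟨(mem_roots hP0).2 h4, inv_pos.2 hz0⟩
    have h2 : Disjoint S (S.image (·⁻¹)) := by
      rw [Finset.disjoint_left]
      intro x hx hx'
      rw [Finset.mem_image] at hx'
      obtain ⟨z, hz, rfl⟩ := hx'
      simp only [hS, Finset.mem_filter, Multiset.mem_toFinset] at hx hz
      have h3 : z⁻¹ < 1 := inv_lt_one_of_one_lt₀ hz.2
      linarith [hx.2]
    rw [Finset.card_union_of_disjoint h2, Finset.card_image_of_injective _ inv_injective] at h1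
    omega
  set T : Finset ℝ := S.filter (fun x => Odd (P.roots.count x)) with hT
  have hTS : T.card ≤ S.card := Finset.card_filter_le _ _
  obtain ⟨q, hq1, -, hq2⟩ := exists_prod_multiset_X_sub_C_mul P
  have hq0 : q ≠ 0 := by
    intro h
    rw [h, mul_zero] at hq1
    exact hP0 hq1.symm
  refine ⟨T.card, by omega, fun i => (T.equivFin.symm i : ℝ), fun i => ?_, q.eval 2,
    P.roots.toFinset, fun y hy hyZ => ?_⟩
  · have := (T.equivFin.symm i).2
    simp only [hT, hS, Finset.mem_filter] at this
    exact this.1.2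
  · have hprodT : ∏ i, (y - ((T.equivFin.symm i : T) : ℝ)) = ∏ x ∈ T, (y - x) := by
      rw [← Finset.prod_coe_sort T (fun x => y - x)]
      exact Equiv.prod_comp T.equivFin.symm (fun x : T => y - (x : ℝ))
    rw [hprodT, ← heval]
    have hPy : P.eval y = (∏ x ∈ P.roots.toFinset, (y - x) ^ (P.roots.count x)) * q.eval y := by
      conv_lhs => rw [← hq1]
      rw [eval_mul, eval_multiset_prod, Multiset.map_map]
      congr 1
      rw [← Finset.prod_multiset_map_count]
      congr 1
      refine Multiset.map_congr rfl fun x _ => ?_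
      simp
    have hT2 : ∏ x ∈ T, (y - x) = ∏ x ∈ P.roots.toFinset,
        (if 1 < x ∧ Odd (P.roots.count x) then y - x else 1) := by
      rw [hT, hS, Finset.filter_filter, Finset.prod_filter]
    have hpos : 0 < (∏ x ∈ P.roots.toFinset, (y - x) ^ (P.roots.count x)) * ∏ x ∈ T, (y - x) := by
      rw [hT2, ← Finset.prod_mul_distrib]
      refine Finset.prod_pos fun x hx => ?_
      have hyx : y - x ≠ 0 := by
        intro h
        apply hyZ
        rw [sub_eq_zero.1 h]
        exact hx
      by_cases hx1 : 1 < x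
      · by_cases hodd : Odd (P.roots.count x)
        · rw [if_pos ⟨hx1, hodd⟩, ← pow_succ]
          have : Even (P.roots.count x + 1) := hodd.add_one
          exact this.pow_pos hyx
        · rw [if_neg (fun h => hodd h.2), mul_one]
          exact (Nat.not_odd_iff_even.1 hodd).pow_pos hyx
      · rw [if_neg (fun h => hx1 h.1), mul_one]
        have : 0 < y - x := by linarith [not_lt.1 hx1]
        positivity
    have hcs := const_sign q hq2 hq0 y
    rw [hPy]
    have : q.eval 2 * ((∏ x ∈ P.roots.toFinset, (y - x) ^ (P.roots.count x)) * q.eval y) *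
        ∏ x ∈ T, (y - x) = (q.eval 2 * q.eval y) *
        ((∏ x ∈ P.roots.toFinset, (y - x) ^ (P.roots.count x)) * ∏ x ∈ T, (y - x)) := by ring
    rw [this]
    exact mul_pos hcs hpos

end Pool.Agent.Helper54.TP
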